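import Pool.Agent.K6.H88.TW.Sel2
import Pool.Agent.K6.H88.TW.Fam3

/-!
# All small quadratic twists of a positive proportion of all elliptic curves over `ℚ` (helper88)
-/

set_option autoImplicit false
set_option linter.all false

open Polynomial IsDedekindDomain WeierstrassCurve WeierstrassCurve.Affine NumberField
open Pool.Agent.TH115.GD
open scoped Classical

namespace Pool.Agent.K6.H88.TW

open Pool.Agent.N922.PQ
open Pool.Agent.N874.PP (Tup chA chB gq tau Two Ev Sq1 U0 sW IsBeta Rt sg)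
open Pool.Agent.N874.PM (PLoc Lies SelR ShaR)

section rank

theorem rank_le_of {G : Type*} [AddCommGroup G] (hG : AddGroup.FG G)
    (h : ∀ x y : G, (∃ z, x = (2 : ℕ) • z) ∨ (∃ z, y = (2 : ℕ) • z) ∨ ∃ z, x + y = (2 : ℕ) • z) :
    Module.finrank ℤ G ≤ 1 := by
  haveI : Module.Finite ℤ G := Module.Finite.iff_addGroup_fg.2 hG
  by_contra hlt
  rw [not_le] at hlt
  let T := Submodule.torsion ℤ G
  have hr : Module.finrank ℤ (G ⧸ T) = Module.finrank ℤ G := by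
    unfold Module.finrank
    rw [rank_quotient_eq_of_le_torsion (le_refl _)]
  haveI : Module.Free ℤ (G ⧸ T) := inferInstance
  let b := Module.finBasis ℤ (G ⧸ T)
  have h2 : 1 < Module.finrank ℤ (G ⧸ T) := by rw [hr]; exact hlt
  obtain ⟨x, hx⟩ := Submodule.Quotient.mk_surjective T (b ⟨0, by omega⟩)
  obtain ⟨y, hy⟩ := Submodule.Quotient.mk_surjective T (b ⟨1, h2⟩)
  have key : ∀ (w : G) (i : Fin (Module.finrank ℤ (G ⧸ T))),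
      b.repr (Submodule.Quotient.mk w) i = 1 → ¬ ∃ z, w = (2 : ℕ) • z := by
    rintro w i hi ⟨z, rfl⟩
    have e : (Submodule.Quotient.mk ((2 : ℕ) • z) : G ⧸ T) = (2 : ℤ) • Submodule.Quotient.mk z := by
      rw [← Submodule.Quotient.mk_smul]
      congr 1
      rw [two_nsmul, two_zsmul]
    rw [e, map_smul, Finsupp.smul_apply, smul_eq_mul] at hi
    omega
  rcases h x y with h | h | h
  · exact key x ⟨0, by omega⟩ (by rw [hx, b.repr_self, Finsupp.single_eq_same]) h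
  · exact key y ⟨1, h2⟩ (by rw [hy, b.repr_self, Finsupp.single_eq_same]) h
  · refine key (x + y) ⟨1, h2⟩ ?_ h
    rw [Submodule.Quotient.mk_add, hx, hy, map_add, Finsupp.add_apply, b.repr_self, b.repr_self,
      Finsupp.single_eq_same, Finsupp.single_eq_of_ne, zero_add]
    intro h0
    simp at h0

/-- The 2-Selmer group is zero, the group of points is finite of odd order, and the 2-primary part of
the Tate-Shafarevich group is zero. -/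
def RkZero {M : Type} [Field M] (R : Type) [CommRing R] [IsDedekindDomain R] [Algebra R M]
    [IsFractionRing R M] (A B : M) : Prop :=
  SelR R (sW A B) ∧ Finite (Pt (sW A B) M) ∧ Odd (Nat.card (Pt (sW A B) M)) ∧ ShaR R (sW A B)

/-- The group of points is finitely generated of rank at most one. -/
def RkOne {M : Type} [Field M] (A B : M) : Prop :=
  AddGroup.FG (Pt (sW A B) M) ∧ Module.finrank ℤ (Pt (sW A B) M) ≤ 1

theorem rkZero_of {M : Type} [Field M] [NumberField M] (R : Type) [CommRing R] [IsDedekindDomain R]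
    [Algebra R M] [IsFractionRing R M] {A B : M} (hd : 4 * A ^ 3 + 27 * B ^ 2 ≠ 0)
    (h : SelR R (sW A B)) : RkZero R A B := by
  have h6M : (6 : M) ≠ 0 := by norm_num
  obtain ⟨h2, h3⟩ := Pool.Agent.N650.PM.gfr M R A B h6M hd h
  have hfin := Pool.Agent.N273.PQ.finm M A B hd h2
  haveI := hfin
  exact ⟨h, hfin, odd_card h2, h3⟩

theorem rkOne_of {M : Type} [Field M] [NumberField M] {A B : M} (hd : 4 * A ^ 3 + 27 * B ^ 2 ≠ 0)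
    (h : AtMostTwo A B) : RkOne A B :=
  ⟨Pool.Agent.N273.PQ.mw M A B hd, rank_le_of (Pool.Agent.N273.PQ.mw M A B hd) h⟩

end rank

section tw

theorem th_mul {d D : ℤ} (hD : D % 8 = 1) : Th (d * D) ↔ Th d := by
  constructor
  · rintro ⟨k, m', h1, h2⟩
    have hc : IsCoprime ((4 : ℤ) ^ k) D := by
      apply IsCoprime.pow_left
      obtain ⟨e, he⟩ : ∃ e, D = 8 * e + 1 := ⟨D / 8, by omega⟩
      exact ⟨-(2 * e), 1, by rw [he]; ring⟩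
    have hd : (4 : ℤ) ^ k ∣ d := hc.dvd_of_dvd_mul_right ⟨m', h1⟩
    obtain ⟨d', rfl⟩ := hd
    refine ⟨k, d', rfl, ?_⟩
    have h3 : d' * D = m' := by
      have h4 : (4 : ℤ) ^ k ≠ 0 := by positivity
      apply mul_left_cancel₀ h4
      rw [← h1]
      ring
    have h5 : (d' * D) % 4 = 3 := by rw [h3]; exact h2
    rw [Int.mul_emod] at h5
    have h6 : D % 4 = 1 := by omega
    rw [h6, mul_one] at h5
    omega
  · rintro ⟨k, m', rfl, h2⟩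
    refine ⟨k, m' * D, by ring, ?_⟩
    rw [Int.mul_emod, h2]
    have h6 : D % 4 = 1 := by omega
    rw [h6]
    norm_num

/-- The twist by `d` of the curve `(A, B)`. -/
structure GoodTw (A B d : ℤ) : Prop where
  zero : ¬ Th d → RkZero (M := ℚ) ℤ (((A * d ^ 2 : ℤ)) : ℚ) (((B * d ^ 3 : ℤ)) : ℚ)
  one : Th d → RkOne (((A * d ^ 2 : ℤ)) : ℚ) (((B * d ^ 3 : ℤ)) : ℚ)

/-- All prime factors `P` of `d` are at most `N`, or `X ^ 3 + A X + B` has no zero modulo `P`. -/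
def Adm (N : ℕ) (A B d : ℤ) : Prop :=
  d ≠ 0 ∧ ∀ P : ℤ, IsPr P → P ∣ d → P ≤ N ∨ ∀ z : ℤ, ¬ P ∣ z ^ 3 + A * z + B

/-- The twists of a good curve. -/
theorem exists_J {κ : ℕ} (hLB : LBk κ) {a b : ℤ} {X' : ℕ} {S T : Finset ℤ} {s A B : ℤ → ℤ}
    (hS : GoodS S s) (hF : Fam X' S s T A B a b) (hnb : ¬ LBad κ X' S s a b) (hT : GoodT T A B)
    (ha : a % 4 = 3) (hb : b % 4 = 3) {N : ℕ} (hN : ∀ P : ℤ, IsPr P → P ≤ N → P ∈ T) :
    ∃ J ⊆ S, ∀ d : ℤ, Adm N (a * (∏ Q ∈ J, Q) ^ 2) (b * (∏ Q ∈ J, Q) ^ 3) d →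
      GoodTw (a * (∏ Q ∈ J, Q) ^ 2) (b * (∏ Q ∈ J, Q) ^ 3) d := by
  have hnt2 : ∀ z : ℤ, ¬ (2 : ℤ) ∣ z ^ 3 + a * z + b := fam_nt hT hF hT.1
  have hirr : Irreducible (ff ℚ a b) := by
    have h := irr_tw (algebraMap ℚ ℚ_[2]) hnt2 one_ne_zero
    rw [one_pow, one_pow, mul_one, mul_one] at h
    exact h
  obtain ⟨L, iF, iN, θ, hc, -⟩ := exists_cub hirr
  obtain ⟨J, hJ, hsel⟩ := core2 (L := L) (𝓞 L) parts.cls parts.exq parts.ns parts.lin parts.recp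
    parts.plm parts.sd parts.ttv hLB hc hS hT hF hnb
  refine ⟨J, hJ, fun d hd => ?_⟩
  have hD8 : (∏ Q ∈ J, Q) % 8 = 1 := prod_mod8 fun Q hQ => (hS Q (hJ hQ)).2.1
  have hin : Inert a b d := by
    intro P hP hPd z hz
    rcases hd.2 P hP hPd with h | h
    · exact fam_nt hT hF (hN P hP h) z hz
    · apply h (z * ∏ Q ∈ J, Q)
      have e : (z * ∏ Q ∈ J, Q) ^ 3 + a * (∏ Q ∈ J, Q) ^ 2 * (z * ∏ Q ∈ J, Q) +
          b * (∏ Q ∈ J, Q) ^ 3 = (z ^ 3 + a * z + b) * (∏ Q ∈ J, Q) ^ 3 := by ring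
      rw [e]
      exact hz.mul_right _
  have G : Hyp (𝓞 L) a b d θ X' S J T s A B := ⟨hc, hS, hF, hT, hJ, hin, hd.1, hsel, ha, hb⟩
  have e1 : a * (d * ∏ Q ∈ J, Q) ^ 2 = a * (∏ Q ∈ J, Q) ^ 2 * d ^ 2 := by ring
  have e2 : b * (d * ∏ Q ∈ J, Q) ^ 3 = b * (∏ Q ∈ J, Q) ^ 3 * d ^ 3 := by ring
  have hdis := disc_ne (a := a) (b := b) G.m0 hF.sq.ne_zero
  rw [e1, e2] at hdis
  refine ⟨fun h => ?_, fun h => ?_⟩
  · have h1 := selR_tw parts G (fun h' => h ((th_mul hD8).1 h'))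
    rw [e1, e2] at h1
    exact rkZero_of ℤ hdis h1
  · have h1 := pts_tw parts G ((th_mul hD8).2 h)
    rw [e1, e2] at h1
    exact rkOne_of hdis h1

end tw

section count

/-- Many curves of the family are not bad. -/
theorem good_card3 (κ : ℕ) {T : Finset ℤ} {A B : ℤ → ℤ}
    (hT : GoodT T A B)
    (hEX : ∀ r : ℕ, ∃ (S : Finset ℤ) (s : ℤ → ℤ), GoodS S s ∧ S.card = r ∧ Disjoint S T) :
    ∃ (S : Finset ℤ) (s : ℤ → ℤ) (c : ℝ), GoodS S s ∧ Disjoint S T ∧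
      0 < c ∧ ∃ X₀ : ℕ, ∀ X ≥ X₀,
      c * (X : ℝ) ^ 5 ≤ ({p : ℤ × ℤ | (Fam X S s T A B p.1 p.2 ∧ (p.1 % 4 = 3 ∧ p.2 % 4 = 3)) ∧
        ¬ LBad κ X S s p.1 p.2}.ncard : ℝ) := by
  obtain ⟨c, hc, hfam⟩ := fam3 T A B hT
  obtain ⟨K, hK⟩ := bad κ
  obtain ⟨r, hr⟩ : ∃ r : ℕ, 2 * (K : ℝ) / c < 2 ^ r :=
    pow_unbounded_of_one_lt _ (by norm_num)
  obtain ⟨S, s, hS, hcard, hdis⟩ := hEX r
  obtain ⟨X₁, h1⟩ := hfam S s hS hdis
  obtain ⟨X₂, h2⟩ := hK S s hS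
  set P : ℝ := ∏ Q ∈ S, (Q : ℝ) ^ 2 with hP
  have hP0 : 0 < P := Finset.prod_pos fun Q hQ => by
    have : (0 : ℝ) < Q := by exact_mod_cast (hS Q hQ).1.1
    positivity
  refine ⟨S, s, c / (2 * P), hS, hdis, by positivity, max X₁ X₂, fun X hX => ?_⟩
  have hF := h1 X ((le_max_left _ _).trans hX)
  obtain ⟨hfin, hB⟩ := h2 X ((le_max_right _ _).trans hX)
  have hd := Set.le_ncard_diff {p : ℤ × ℤ | LBad κ X S s p.1 p.2}
    {p : ℤ × ℤ | Fam X S s T A B p.1 p.2 ∧ (p.1 % 4 = 3 ∧ p.2 % 4 = 3)} hfin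
  have e : {p : ℤ × ℤ | Fam X S s T A B p.1 p.2 ∧ (p.1 % 4 = 3 ∧ p.2 % 4 = 3)} \
      {p : ℤ × ℤ | LBad κ X S s p.1 p.2} =
      {p : ℤ × ℤ | (Fam X S s T A B p.1 p.2 ∧ (p.1 % 4 = 3 ∧ p.2 % 4 = 3)) ∧
        ¬ LBad κ X S s p.1 p.2} := rfl
  rw [e] at hd
  set F : ℕ := {p : ℤ × ℤ | Fam X S s T A B p.1 p.2 ∧ (p.1 % 4 = 3 ∧ p.2 % 4 = 3)}.ncard
  set Bd : ℕ := {p : ℤ × ℤ | LBad κ X S s p.1 p.2}.ncard
  set G : ℕ := {p : ℤ × ℤ | (Fam X S s T A B p.1 p.2 ∧ (p.1 % 4 = 3 ∧ p.2 % 4 = 3)) ∧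
    ¬ LBad κ X S s p.1 p.2}.ncard
  have hd' : (F : ℝ) ≤ Bd + G := by
    have : F ≤ Bd + G := by omega
    exact_mod_cast this
  have hB' : (2 : ℝ) ^ r * P * Bd ≤ K * (X : ℝ) ^ 5 := by
    rw [hcard] at hB
    have h3 : ((2 ^ r * (∏ Q ∈ S, Q) ^ 2 * (Bd : ℤ) : ℤ) : ℝ) ≤ ((K * X ^ 5 : ℤ) : ℝ) := by
      exact_mod_cast hB
    have e2 : ((2 ^ r * (∏ Q ∈ S, Q) ^ 2 * (Bd : ℤ) : ℤ) : ℝ) = (2 : ℝ) ^ r * P * Bd := by
      rw [hP, Finset.prod_pow]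
      push_cast
      ring
    rw [e2] at h3
    refine h3.trans (le_of_eq ?_)
    push_cast
    ring
  have hF' : c * (X : ℝ) ^ 5 ≤ P * F := hF
  rw [div_lt_iff₀ hc] at hr
  have hPB : P * (Bd : ℝ) ≤ c / 2 * (X : ℝ) ^ 5 := by
    have h2r : (0 : ℝ) < 2 ^ r := by positivity
    rw [← mul_le_mul_iff_right₀ h2r]
    calc 2 ^ r * (P * (Bd : ℝ)) = 2 ^ r * P * Bd := by ring
      _ ≤ K * (X : ℝ) ^ 5 := hB'
      _ = (2 * (K : ℝ)) * ((X : ℝ) ^ 5 / 2) := by ring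
      _ ≤ (2 ^ r * c) * ((X : ℝ) ^ 5 / 2) := by gcongr
      _ = 2 ^ r * (c / 2 * (X : ℝ) ^ 5) := by ring
  have hPG : c / 2 * (X : ℝ) ^ 5 ≤ P * G := by
    have : (P : ℝ) * F ≤ P * Bd + P * G := by
      rw [← mul_add]
      exact mul_le_mul_of_nonneg_left hd' hP0.le
    linarith
  calc c / (2 * P) * (X : ℝ) ^ 5 = c / 2 * (X : ℝ) ^ 5 / P := by
        field_simp
    _ ≤ P * G / P := by gcongr
    _ = G := by field_simp

/-- The main theorem. -/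
theorem mainT (N : ℕ) : ∃ c : ℝ, 0 < c ∧ ∃ H₀ : ℕ, ∀ H ≥ H₀, {p : ℤ × ℤ | Crv H p.1 p.2}.Finite ∧
    c * ({p : ℤ × ℤ | Crv H p.1 p.2}.ncard : ℝ) ≤
      ({p : ℤ × ℤ | Crv H p.1 p.2 ∧ ∀ d, Adm N p.1 p.2 d → GoodTw p.1 p.2 d}.ncard : ℝ) := by
  obtain ⟨κ, hLB'⟩ := lb
  obtain ⟨γ, g, δ, hG, hdeg⟩ := Pool.Agent.N40.PQ.gen ℚ
  obtain ⟨T₀, hT₀, hδ₀⟩ : ∃ T : Finset ℤ, (∀ P ∈ T, IsPr P) ∧
      ∀ P : ℤ, IsPr P → P ≤ N → P ∈ T := by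
    have hf : {P : ℤ | IsPr P ∧ P ≤ N}.Finite := by
      refine (Set.finite_Icc 0 (N : ℤ)).subset ?_
      rintro P ⟨h, h2⟩
      exact ⟨h.1.le, h2⟩
    refine ⟨hf.toFinset, fun P hP => ?_, fun P h1 h2 => ?_⟩
    · exact (hf.mem_toFinset.1 hP).1
    · exact hf.mem_toFinset.2 ⟨h1, h2⟩
  obtain ⟨T, A, B, hTT, hT⟩ := Pool.Agent.N954.PQ.tch T₀ hT₀
  have hδ : ∀ P : ℤ, IsPr P → P ≤ N → P ∈ T := fun P h1 h2 => hTT (hδ₀ P h1 h2)
  haveI hgal : @IsGalois ℚ _ ℚ _ DivisionRing.toRatAlgebra := by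
    have h : (DivisionRing.toRatAlgebra : Algebra ℚ ℚ) = Algebra.id ℚ := Subsingleton.elim _ _
    rw [h]
    infer_instance
  obtain ⟨S, s, c, hS, hdis, hc, X₀, hX₀⟩ := good_card3 κ hT (fun r => by
    obtain ⟨S, s, h1, h2, h3, -⟩ := Pool.Agent.N40.PQ.spl ℚ γ g δ hG hdeg T r
    exact ⟨S, s, h1, h2, h3⟩)
  have hSpos : 0 < ∏ Q ∈ S, Q := Finset.prod_pos fun Q hQ => (hS Q hQ).1.1
  refine Pool.Agent.N607.PQ.cnt (fun p => ∀ d, Adm N p.1 p.2 d → GoodTw p.1 p.2 d)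
    (∏ Q ∈ S, Q).toNat X₀ (c / 2 ^ S.card)
    (by positivity) (by omega) fun X hX Hh hHh => ?_
  have hN := hX₀ X hX
  set Hs := {p : ℤ × ℤ | Crv Hh p.1 p.2 ∧ ∀ d, Adm N p.1 p.2 d → GoodTw p.1 p.2 d} with hH
  set G := {p : ℤ × ℤ | (Fam X S s T A B p.1 p.2 ∧ (p.1 % 4 = 3 ∧ p.2 % 4 = 3)) ∧
    ¬ LBad κ X S s p.1 p.2} with hG'
  have hHf : Hs.Finite := (crv_fin Hh).subset fun p hp => hp.1
  have hbd : 27 * ((X : ℤ) * ∏ Q ∈ S, Q) ^ 6 ≤ Hh := by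
    have h1 : ((27 * (X * (∏ Q ∈ S, Q).toNat) ^ 6 : ℕ) : ℤ) ≤ Hh := by exact_mod_cast hHh
    have e1 : (((∏ Q ∈ S, Q).toNat : ℕ) : ℤ) = ∏ Q ∈ S, Q := Int.toNat_of_nonneg hSpos.le
    rw [Nat.cast_mul, Nat.cast_pow, Nat.cast_mul, e1] at h1
    exact_mod_cast h1
  have hcard := card_fib hHf S
    (fun (J : Finset ℤ) (p : ℤ × ℤ) => (p.1 * (∏ Q ∈ J, Q) ^ 2, p.2 * (∏ Q ∈ J, Q) ^ 3)) (G := G) (by
      rintro p ⟨⟨hpF, hp4, hp4'⟩, hnb⟩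
      obtain ⟨J, hJ, hsel⟩ := exists_J hLB' hS hpF hnb hT hp4 hp4' hδ
      exact ⟨J, hJ, Pool.Agent.N707.PQ.crv X Hh S T s A B p.1 p.2 hS hT hpF J hJ hbd, hsel⟩) (by
      intro J hJ x hx y hy hxy
      have hD0 : (∏ Q ∈ J, Q) ≠ 0 := by
        rw [Finset.prod_ne_zero_iff]
        exact fun Q hQ => (hS Q (hJ hQ)).1.2.ne_zero
      rw [Prod.mk.injEq] at hxy
      exact twist_inj hD0 hxy.1 hxy.2)
  have hcard' : (G.ncard : ℝ) ≤ 2 ^ S.card * Hs.ncard := by exact_mod_cast hcard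
  calc c / 2 ^ S.card * (X : ℝ) ^ 5
      = c * (X : ℝ) ^ 5 / 2 ^ S.card := by ring
    _ ≤ (G.ncard : ℝ) / 2 ^ S.card := by gcongr
    _ ≤ (2 ^ S.card * Hs.ncard) / 2 ^ S.card := by gcongr
    _ = Hs.ncard := by field_simp

end count

end Pool.Agent.K6.H88.TW
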