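import Pool.Agent.K6.H88.TW.Two

/-!
# The condition at `2` for elements of the cubic field (helper88)
-/

set_option autoImplicit false
set_option linter.all false

open Polynomial

namespace Pool.Agent.K6.H88.TW

open Pool.Agent.N922.PQ

/-- The local condition at `2` of the twist by `m`, for elements of `L`. -/
def LocT {L : Type} [Field L] [CharZero L] (a b m : ℤ) (θ α : L) : Prop :=
  ∀ h : ℚ[X], aeval θ h = α → PLt a b m (h.map (algebraMap ℚ ℚ_[2]))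

theorem co2 : ((2 : ℤ_[2]) : ℚ_[2]) = 2 := map_ofNat (PadicInt.Coe.ringHom (p := 2)) 2

theorem co4 : ((4 : ℤ_[2]) : ℚ_[2]) = 4 := map_ofNat (PadicInt.Coe.ringHom (p := 2)) 4

theorem pol_eq (g₁ g₂ : ℤ) (r s t : ℚ_[2]) : pol ℚ_[2] g₁ g₂ r s t =
    C (1 + 4 * r) + C (2 * (g₁ + 2 * s)) * X + C (2 * (g₂ + 2 * t)) * X ^ 2 := by
  unfold pol
  simp only [map_add, map_mul, map_ofNat, map_one]
  ring

theorem odd_lift {q : ℚ} (hq : Odd q.den) : ∃ z : ℤ_[2], (z : ℚ_[2]) = (q : ℚ_[2]) := by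
  refine ⟨⟨(q : ℚ_[2]), ?_⟩, rfl⟩
  apply Padic.norm_rat_le_one
  intro h
  exact (Nat.not_even_iff_odd.2 hq) (even_iff_two_dvd.2 h)

/-- Normal form of an element of `L`. -/
structure NFm {L : Type} [Field L] [NumberField L] (θ x c : L) (g₁ g₂ : ℤ) (r s t : ℚ) : Prop where
  ne : c ≠ 0
  hr : Odd r.den
  hs : Odd s.den
  ht : Odd t.den
  eq : x = c ^ 2 * aeval θ (pol ℚ g₁ g₂ ((g₁ * (1 + g₂) : ℤ) + 2 * r) s t)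

variable {L : Type} [Field L] [NumberField L] {a b : ℤ} {θ : L}

/-- A normal form with good classes satisfies the condition at `2`. -/
theorem loc2_of_nf (hc : IsCub a b θ) (ha : a % 4 = 3) (hb : b % 4 = 3) {x c : L} {g₁ g₂ : ℤ}
    {r s t : ℚ} (H : NFm θ x c g₁ g₂ r s t) (hg : Even g₂) : Loc2 a b θ x := by
  obtain ⟨hc0, hr, hs, ht, hα⟩ := H
  have hao : Odd a := Int.odd_iff.2 (by omega)
  have hab : (4 : ℤ) ∣ a - b := by omega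
  obtain ⟨k, hk⟩ := hc.exists_poly c
  set P : ℚ[X] := pol ℚ g₁ g₂ ((g₁ * (1 + g₂) : ℤ) + 2 * r) s t with hP
  have e1 : aeval θ (k ^ 2 * P) = x := by
    rw [map_mul, map_pow, hk, hα]
  have hnd : ∀ q : ℚ, Odd q.den → ‖(q : ℚ_[2])‖ ≤ 1 := by
    intro q hq
    apply Padic.norm_rat_le_one
    intro h
    exact (Nat.not_even_iff_odd.2 hq) (even_iff_two_dvd.2 h)
  have h5 : (Even g₁ ∧ Even g₂) ∨ ((4 : ℤ) ∣ 2 * g₁ - (1 - a) ∧ (4 : ℤ) ∣ 2 * g₂ - (3 - a)) := by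
    obtain ⟨j, hj⟩ := hg
    rcases Int.even_or_odd g₁ with h | h
    · exact Or.inl ⟨h, ⟨j, hj⟩⟩
    · right
      obtain ⟨i, hi⟩ := h
      constructor <;> omega
  have h6 := Pool.Agent.N951.PV.pt2 a b hao hab g₁ g₂
    ((((g₁ * (1 + g₂) : ℤ) : ℚ) + 2 * r : ℚ) : ℚ_[2]) s t (by
    have e : ((((g₁ * (1 + g₂) : ℤ) : ℚ) + 2 * r : ℚ) : ℚ_[2]) - ((g₁ * (1 + g₂) : ℤ) : ℚ_[2]) =
        2 * (r : ℚ_[2]) := by
      push_cast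
      ring
    rw [e, norm_mul]
    have e3 : ‖(2 : ℚ_[2])‖ = 1 / 2 := by
      have := Padic.norm_p (p := 2)
      rw [Nat.cast_ofNat] at this
      rw [this]
      norm_num
    rw [e3]
    have := hnd r hr
    linarith) (hnd s hs) (hnd t ht) h5
  rw [← Pool.Agent.N951.PV.pol_map, ← hP] at h6
  intro h' hh'
  have h7 : PL ℚ_[2] a b ((k.map (algebraMap ℚ ℚ_[2])) ^ 2 * P.map (algebraMap ℚ ℚ_[2])) :=
    Pool.Agent.N951.PV.pl_sq _ h6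
  rw [← Polynomial.map_pow, ← Polynomial.map_mul] at h7
  exact Pool.Agent.N951.PV.pl_congr (Pool.Agent.N951.PV.cast_congr hc ℚ_[2] (e1.trans hh'.symm)) h7

/-- The normal form of an element in the local image of the twist. -/
theorem nf_of_locT (hc : IsCub a b θ) (ha : a % 4 = 3) (hb : b % 4 = 3) {m : ℤ} (hm : m ≠ 0)
    {x : L} (hx : x ≠ 0) (hN : IsSquare (Algebra.norm ℚ x)) (hT : LocT a b m θ x) :
    ∃ (c : L) (g₁ g₂ : ℤ) (r s t : ℚ), NFm θ x c g₁ g₂ r s t ∧ (¬ Th m → Even g₂) ∧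
      (Th m → Even (g₁ - g₂)) := by
  have hao : Odd a := Int.odd_iff.2 (by omega)
  have hbo : Odd b := Int.odd_iff.2 (by omega)
  obtain ⟨c, g₁, g₂, r, s, t, hc0, hr, hs, ht, hα⟩ :=
    Pool.Agent.N907.PV.t_NF2 L a b θ hc hao hbo x hx hN
  refine ⟨c, g₁, g₂, r, s, t, ⟨hc0, hr, hs, ht, hα⟩, ?_⟩
  obtain ⟨k, hk⟩ := hc.exists_poly c
  obtain ⟨k', hk'⟩ := hc.exists_poly c⁻¹
  set P : ℚ[X] := pol ℚ g₁ g₂ ((g₁ * (1 + g₂) : ℤ) + 2 * r) s t with hP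
  have e1 : aeval θ (k ^ 2 * P) = x := by
    rw [map_mul, map_pow, hk, hα]
  have e2 : aeval θ (k' ^ 2 * (k ^ 2 * P)) = aeval θ P := by
    rw [map_mul, map_pow, hk', e1, hα, ← mul_assoc, ← mul_pow, inv_mul_cancel₀ hc0, one_pow, one_mul]
  have h3 := plt_sq (k'.map (algebraMap ℚ ℚ_[2])) (hT _ e1)
  rw [← Polynomial.map_pow, ← Polynomial.map_mul] at h3
  have h4 := plt_congr (Pool.Agent.N951.PV.cast_congr hc ℚ_[2] e2) h3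
  rw [hP, Pool.Agent.N951.PV.pol_map] at h4
  obtain ⟨r', hr'⟩ := odd_lift hr
  obtain ⟨s', hs'⟩ := odd_lift hs
  obtain ⟨t', ht'⟩ := odd_lift ht
  refine calc1 ha hb hm (g₁ := g₁) (g₂ := g₂) (r := (g₁ * (1 + g₂) : ℤ) + 2 * r') (s := s')
    (t := t') ?_
  convert h4 using 2
  · push_cast
    rw [hr', co2]

/-- Multiplication modulo `f`. -/
theorem mul_mod (F : Type) [Field F] (a b : ℤ) (p0 p1 p2 q0 q1 q2 : F) :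
    ff F a b ∣ (C p0 + C p1 * X + C p2 * X ^ 2) * (C q0 + C q1 * X + C q2 * X ^ 2) -
      (C (p0 * q0 - b * (p1 * q2 + p2 * q1)) +
        C (p0 * q1 + p1 * q0 - a * (p1 * q2 + p2 * q1) - b * (p2 * q2)) * X +
        C (p0 * q2 + p1 * q1 + p2 * q0 - a * (p2 * q2)) * X ^ 2) := by
  refine ⟨C (p1 * q2 + p2 * q1) + C (p2 * q2) * X, ?_⟩
  unfold ff
  simp only [map_add, map_sub, map_mul, C_eq_intCast]
  ring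

/-- The product of two elements with odd classes has even classes. -/
theorem nf_mul_odd (hc : IsCub a b θ) (ha : a % 4 = 3) (hb : b % 4 = 3) {x c x' c' c'' : L}
    {g₁ g₂ g₁' g₂' g₁'' g₂'' : ℤ} {r s t r' s' t' r'' s'' t'' : ℚ}
    (H : NFm θ x c g₁ g₂ r s t) (H' : NFm θ x' c' g₁' g₂' r' s' t')
    (H'' : NFm θ (x * x') c'' g₁'' g₂'' r'' s'' t'') (h1 : Odd g₁) (h2 : Odd g₂) (h1' : Odd g₁')
    (h2' : Odd g₂') : Even g₂'' := by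
  obtain ⟨hc0, hr, hs, ht, hα⟩ := H
  obtain ⟨hc0', hr', hs', ht', hα'⟩ := H'
  obtain ⟨hc0'', hr'', hs'', ht'', hα''⟩ := H''
  obtain ⟨k, hk⟩ := hc.exists_poly (c * c' * aeval θ (pol ℚ g₁ g₂ ((g₁ * (1 + g₂) : ℤ) + 2 * r) s t) *
    aeval θ (pol ℚ g₁' g₂' ((g₁' * (1 + g₂') : ℤ) + 2 * r') s' t') / c'')
  have e : aeval θ (pol ℚ g₁'' g₂'' ((g₁'' * (1 + g₂'') : ℤ) + 2 * r'') s'' t'' *
      (pol ℚ g₁ g₂ ((g₁ * (1 + g₂) : ℤ) + 2 * r) s t *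
        pol ℚ g₁' g₂' ((g₁' * (1 + g₂') : ℤ) + 2 * r') s' t')) = aeval θ (k ^ 2) := by
    rw [map_mul, map_mul, map_pow, hk, div_pow, eq_div_iff (pow_ne_zero _ hc0'')]
    rw [hα, hα'] at hα''
    linear_combination (-(aeval θ (pol ℚ g₁ g₂ ((g₁ * (1 + g₂) : ℤ) + 2 * r) s t) *
      aeval θ (pol ℚ g₁' g₂' ((g₁' * (1 + g₂') : ℤ) + 2 * r') s' t'))) * hα''
  have h3 := Pool.Agent.N951.PV.cast_congr hc ℚ_[2] e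
  rw [Polynomial.map_mul, Polynomial.map_mul, Polynomial.map_pow, Pool.Agent.N951.PV.pol_map,
    Pool.Agent.N951.PV.pol_map, Pool.Agent.N951.PV.pol_map] at h3
  obtain ⟨z, hz⟩ := odd_lift hr
  obtain ⟨z1, hz1⟩ := odd_lift hs
  obtain ⟨z2, hz2⟩ := odd_lift ht
  obtain ⟨z', hz'⟩ := odd_lift hr'
  obtain ⟨z1', hz1'⟩ := odd_lift hs'
  obtain ⟨z2', hz2'⟩ := odd_lift ht'
  obtain ⟨w, hw⟩ := odd_lift hr''
  obtain ⟨w1, hw1⟩ := odd_lift hs''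
  obtain ⟨w2, hw2⟩ := odd_lift ht''
  obtain ⟨i1, rfl⟩ := h1
  obtain ⟨i2, rfl⟩ := h2
  obtain ⟨i1', rfl⟩ := h1'
  obtain ⟨i2', rfl⟩ := h2'
  -- coordinates
  obtain ⟨p0, hp0⟩ : ∃ p : ℤ_[2], p = (((2 * i1 + 1) * (1 + (2 * i2 + 1)) : ℤ) : ℤ_[2]) + 2 * z := ⟨_, rfl⟩
  obtain ⟨q0, hq0⟩ : ∃ p : ℤ_[2], p = (((2 * i1' + 1) * (1 + (2 * i2' + 1)) : ℤ) : ℤ_[2]) + 2 * z' := ⟨_, rfl⟩
  obtain ⟨o0, ho0⟩ : ∃ p : ℤ_[2], p = ((g₁'' * (1 + g₂'') : ℤ) : ℤ_[2]) + 2 * w := ⟨_, rfl⟩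
  obtain ⟨α1, hα1⟩ : ∃ p : ℤ_[2], p = (2 * i1 + 1 : ℤ) + 2 * z1 := ⟨_, rfl⟩
  obtain ⟨α2, hα2⟩ : ∃ p : ℤ_[2], p = (2 * i2 + 1 : ℤ) + 2 * z2 := ⟨_, rfl⟩
  obtain ⟨β1, hβ1⟩ : ∃ p : ℤ_[2], p = (2 * i1' + 1 : ℤ) + 2 * z1' := ⟨_, rfl⟩
  obtain ⟨β2, hβ2⟩ : ∃ p : ℤ_[2], p = (2 * i2' + 1 : ℤ) + 2 * z2' := ⟨_, rfl⟩
  obtain ⟨γ1, hγ1⟩ : ∃ p : ℤ_[2], p = (g₁'' : ℤ_[2]) + 2 * w1 := ⟨_, rfl⟩
  obtain ⟨γ2, hγ2⟩ : ∃ p : ℤ_[2], p = (g₂'' : ℤ_[2]) + 2 * w2 := ⟨_, rfl⟩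
  -- the product of the first two: `1 + 4 (R0 + R1 X + R2 X ^ 2)`
  obtain ⟨R0, hR0⟩ : ∃ p : ℤ_[2], p = p0 + q0 + 4 * p0 * q0 - b * (α1 * β2 + α2 * β1) := ⟨_, rfl⟩
  obtain ⟨R1, hR1⟩ : ∃ p : ℤ_[2], p = (i1 + i1' + 1 : ℤ) + z1 + z1' + 2 * p0 * β1 + 2 * q0 * α1 -
    a * (α1 * β2 + α2 * β1) - b * (α2 * β2) := ⟨_, rfl⟩
  obtain ⟨R2, hR2⟩ : ∃ p : ℤ_[2], p = (i2 + i2' + 1 : ℤ) + z2 + z2' + 2 * p0 * β2 + 2 * q0 * α2 +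
    α1 * β1 - a * (α2 * β2) := ⟨_, rfl⟩
  -- the product of all three
  obtain ⟨S0, hS0⟩ : ∃ p : ℤ_[2], p = o0 + R0 + 4 * o0 * R0 - b * (2 * γ1 * R2 + 2 * γ2 * R1) := ⟨_, rfl⟩
  obtain ⟨S1, hS1⟩ : ∃ p : ℤ_[2], p = w1 + (1 + 4 * o0) * R1 + 2 * γ1 * R0 -
    a * (2 * γ1 * R2 + 2 * γ2 * R1) - b * (2 * γ2 * R2) := ⟨_, rfl⟩
  obtain ⟨S2, hS2⟩ : ∃ p : ℤ_[2], p = w2 + (1 + 4 * o0) * R2 + 2 * γ1 * R1 + 2 * γ2 * R0 -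
    a * (2 * γ2 * R2) := ⟨_, rfl⟩
  have E0 : (1 + 4 * (p0 : ℚ_[2])) * (1 + 4 * (q0 : ℚ_[2])) - b * (2 * α1 * (2 * β2) + 2 * α2 * (2 * β1)) =
      1 + 4 * R0 := by
    rw [hR0]
    push_cast
    rw [co4]
    ring
  have E1 : (1 + 4 * (p0 : ℚ_[2])) * (2 * β1) + 2 * α1 * (1 + 4 * (q0 : ℚ_[2])) -
      a * (2 * α1 * (2 * β2) + 2 * α2 * (2 * β1)) - b * (2 * α2 * (2 * β2)) = 4 * R1 := by
    have h8 : (α1 : ℚ_[2]) + β1 = 2 * ((i1 + i1' + 1 : ℤ) + z1 + z1') := by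
      rw [hα1, hβ1]
      push_cast
      rw [co2]
      ring
    rw [hR1]
    push_cast at h8 ⊢
    rw [co2]
    linear_combination 2 * h8
  have E2 : (1 + 4 * (p0 : ℚ_[2])) * (2 * β2) + 2 * α1 * (2 * β1) + 2 * α2 * (1 + 4 * (q0 : ℚ_[2])) -
      a * (2 * α2 * (2 * β2)) = 4 * R2 := by
    have h8 : (α2 : ℚ_[2]) + β2 = 2 * ((i2 + i2' + 1 : ℤ) + z2 + z2') := by
      rw [hα2, hβ2]
      push_cast
      rw [co2]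
      ring
    rw [hR2]
    push_cast at h8 ⊢
    rw [co2]
    linear_combination 2 * h8
  have F0 : (1 + 4 * (o0 : ℚ_[2])) * (1 + 4 * (R0 : ℚ_[2])) - b * (2 * γ1 * (4 * R2) + 2 * γ2 * (4 * R1)) =
      1 + 4 * S0 := by
    rw [hS0]
    push_cast
    rw [co4, co2]
    ring
  have F1 : (1 + 4 * (o0 : ℚ_[2])) * (4 * R1) + 2 * γ1 * (1 + 4 * (R0 : ℚ_[2])) -
      a * (2 * γ1 * (4 * R2) + 2 * γ2 * (4 * R1)) - b * (2 * γ2 * (4 * R2)) =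
      2 * g₁'' + 4 * S1 := by
    have h8 : (γ1 : ℚ_[2]) = g₁'' + 2 * w1 := by
      rw [hγ1]
      push_cast
      rw [co2]
    rw [hS1]
    push_cast
    rw [co2, co4]
    linear_combination 2 * h8
  have F2 : (1 + 4 * (o0 : ℚ_[2])) * (4 * R2) + 2 * γ1 * (4 * R1) + 2 * γ2 * (1 + 4 * (R0 : ℚ_[2])) -
      a * (2 * γ2 * (4 * R2)) = 2 * g₂'' + 4 * S2 := by
    have h8 : (γ2 : ℚ_[2]) = g₂'' + 2 * w2 := by
      rw [hγ2]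
      push_cast
      rw [co2]
    rw [hS2]
    push_cast
    rw [co2, co4]
    linear_combination 2 * h8
  have m1 := mul_mod ℚ_[2] a b (1 + 4 * (p0 : ℚ_[2])) (2 * α1) (2 * α2) (1 + 4 * (q0 : ℚ_[2]))
    (2 * β1) (2 * β2)
  have m2 := mul_mod ℚ_[2] a b (1 + 4 * (o0 : ℚ_[2])) (2 * γ1) (2 * γ2) (1 + 4 * (R0 : ℚ_[2]))
    (4 * R1) (4 * R2)
  rw [E0, E1, E2] at m1
  rw [F0, F1, F2] at m2
  have G1 : pol ℚ_[2] (2 * i1 + 1) (2 * i2 + 1) (((((2 * i1 + 1) * (1 + (2 * i2 + 1)) : ℤ) : ℚ) + 2 * r : ℚ) : ℚ_[2]) s t =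
      C (1 + 4 * (p0 : ℚ_[2])) + C (2 * (α1 : ℚ_[2])) * X + C (2 * (α2 : ℚ_[2])) * X ^ 2 := by
    rw [pol_eq, hp0, hα1, hα2]
    push_cast
    rw [co2, hz, hz1, hz2]
  have G2 : pol ℚ_[2] (2 * i1' + 1) (2 * i2' + 1) (((((2 * i1' + 1) * (1 + (2 * i2' + 1)) : ℤ) : ℚ) + 2 * r' : ℚ) : ℚ_[2]) s' t' =
      C (1 + 4 * (q0 : ℚ_[2])) + C (2 * (β1 : ℚ_[2])) * X + C (2 * (β2 : ℚ_[2])) * X ^ 2 := by
    rw [pol_eq, hq0, hβ1, hβ2]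
    push_cast
    rw [co2, hz', hz1', hz2']
  have G3 : pol ℚ_[2] g₁'' g₂'' ((((g₁'' * (1 + g₂'') : ℤ) : ℚ) + 2 * r'' : ℚ) : ℚ_[2]) s'' t'' =
      C (1 + 4 * (o0 : ℚ_[2])) + C (2 * (γ1 : ℚ_[2])) * X + C (2 * (γ2 : ℚ_[2])) * X ^ 2 := by
    rw [pol_eq, ho0, hγ1, hγ2]
    push_cast
    rw [co2, hw, hw1, hw2]
  rw [G1, G2, G3] at h3
  obtain ⟨A1, hA1⟩ : ∃ A, A = C (1 + 4 * (p0 : ℚ_[2])) + C (2 * (α1 : ℚ_[2])) * X + C (2 * (α2 : ℚ_[2])) * X ^ 2 := ⟨_, rfl⟩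
  obtain ⟨A2, hA2⟩ : ∃ A, A = C (1 + 4 * (q0 : ℚ_[2])) + C (2 * (β1 : ℚ_[2])) * X + C (2 * (β2 : ℚ_[2])) * X ^ 2 := ⟨_, rfl⟩
  obtain ⟨A3, hA3⟩ : ∃ A, A = C (1 + 4 * (o0 : ℚ_[2])) + C (2 * (γ1 : ℚ_[2])) * X + C (2 * (γ2 : ℚ_[2])) * X ^ 2 := ⟨_, rfl⟩
  rw [← hA1, ← hA2, ← hA3] at h3
  rw [← hA1, ← hA2] at m1
  rw [← hA3] at m2
  have m3 := dvd_mul_of_dvd_right m1 A3
  obtain ⟨T0, T1, T2, e0, e1, e2⟩ := Pool.Agent.N323.PV.sq_form (a := a) (b := b)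
      (1 + 4 * (S0 : ℚ_[2])) (2 * g₁'' + 4 * S1) (2 * g₂'' + 4 * S2) (k.map (algebraMap ℚ ℚ_[2])) (by
        have h5 := dvd_sub (dvd_sub h3 m3) m2
        convert h5 using 1
        ring)
  obtain ⟨-, -, h6, -⟩ := calc0 ha hb (g₁ := g₁'') (g₂ := g₂'') (u := 1) (v := 0) (n := 1) (r := S0)
      (s := S1) (t := S2) (Or.inl rfl) (by ring) (T0 := T0) (T1 := T1) (T2 := T2)
      (by push_cast; linear_combination e0) (by push_cast; linear_combination e1)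
      (by push_cast; linear_combination e2)
  exact h6 (by rw [mul_zero, map_zero]; decide)

end Pool.Agent.K6.H88.TW
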