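import Pool.Agent.K6.H88.TW.Loc
import Pool.Agent.N922.PQ.Final2
import Pool.Agent.N187.PP.GN
import Pool.Agent.N721.PP.GF

/-!
# The 2-Selmer groups over `ℚ` of the twists (helper88)
-/

set_option autoImplicit false
set_option linter.all false

open Polynomial IsDedekindDomain WeierstrassCurve WeierstrassCurve.Affine NumberField
open Pool.Agent.TH115.GD
open scoped Classical

namespace Pool.Agent.K6.H88.TW

open Pool.Agent.N922.PQ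
open Pool.Agent.N874.PP (Tup chA chB gq tau Two Ev Sq1 U0 sW IsBeta Rt sg)
open Pool.Agent.N874.PM (PLoc Lies SelR ShaR)

/-- `PLoc` over the completion of `M` at `w`. -/
def PLc {R M : Type} [CommRing R] [IsDedekindDomain R] [Field M] [Algebra R M] [IsFractionRing R M]
    (w : HeightOneSpectrum R) (A B : M) (h : M[X]) : Prop := PLoc (w.adicCompletion M) A B h

section conds

variable {L : Type} [Field L] [NumberField L] (O : Type)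
  [CommRing O] [IsDedekindDomain O] [Algebra O L] [IsFractionRing O L] [IsIntegralClosure O ℤ L]

/-- The prime factors of `d` are inert in the cubic field. -/
def Inert (a b d : ℤ) : Prop := ∀ P : ℤ, IsPr P → P ∣ d → ∀ z : ℤ, ¬ P ∣ z ^ 3 + a * z + b

theorem not_dvd_d {a b d : ℤ} {X' : ℕ} {S T : Finset ℤ} {s A B : ℤ → ℤ} (hS : GoodS S s)
    (hF : Fam X' S s T A B a b) (hdP : Inert a b d) {Q : ℤ} (hQ : Q ∈ S) : ¬ Q ∣ d := by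
  intro h
  refine hdP Q (hS Q hQ).1 h 0 ?_
  have := hF.rb Q hQ
  simpa using this

theorem conds (H : Parts) {a b d : ℤ} {θ : L} {X' : ℕ} {S J T : Finset ℤ} {s A B : ℤ → ℤ}
    (hc : IsCub a b θ) (hS : GoodS S s) (hF : Fam X' S s T A B a b) (hT : GoodT T A B)
    (hJ : J ⊆ S) (hdP : Inert a b d) {h : ℚ[X]}
    (hloc : ∀ w : HeightOneSpectrum ℤ, ¬ Ov 2 w → PLc w
      (((a * (d * ∏ Q ∈ J, Q) ^ 2 : ℤ)) : ℚ) (((b * (d * ∏ Q ∈ J, Q) ^ 3 : ℤ)) : ℚ) h)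
    (h0 : aeval (((d * ∏ Q ∈ J, Q : ℤ) : L) * θ) h ≠ 0)
    (hN : IsSquare (Algebra.norm ℚ (aeval (((d * ∏ Q ∈ J, Q : ℤ) : L) * θ) h))) :
    (∀ 𝔓 : HeightOneSpectrum O, (∀ Q ∈ J, ¬ Ov Q 𝔓) →
      Ev 𝔓 (aeval (((d * ∏ Q ∈ J, Q : ℤ) : L) * θ) h)) ∧
    (∀ Q ∈ J, ∀ 𝔓 : HeightOneSpectrum O, Ov Q 𝔓 → 𝔓.valuation L θ = 1 →
      U0 𝔓 ((Q : L) * θ) (aeval (((d * ∏ Q ∈ J, Q : ℤ) : L) * θ) h)) ∧
    (∀ Q ∈ J, ∀ 𝔓 : HeightOneSpectrum O, Ov Q 𝔓 → 𝔓.valuation L θ < 1 →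
      Ev 𝔓 (aeval (((d * ∏ Q ∈ J, Q : ℤ) : L) * θ) h)) := by
  haveI : Algebra.IsIntegral ℤ O := IsIntegralClosure.isIntegral_algebra ℤ L
  haveI : CharZero O := charZero_of O L
  have hT' : ∀ P ∈ T, IsPr P := fun P hP => (hT.2.2 P hP).1
  have hroot : θ ^ 3 + algebraMap ℚ L (a : ℚ) * θ + algebraMap ℚ L (b : ℚ) = 0 := by
    rw [map_intCast, map_intCast]
    exact hc.root
  have hnr : ∀ P ∈ T, ∀ z : ℤ, ¬ P ∣ z ^ 3 + a * z + b := fun P hP => fam_nt hT hF hP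
  have hST : ∀ Q ∈ S, Q ∉ T := by
    intro Q hQ hQT
    refine hnr Q hQT 0 ?_
    have := hF.rb Q hQ
    simpa using this
  -- at the primes in `J`
  have key : ∀ Q ∈ J, ∀ 𝔓 : HeightOneSpectrum O, Ov Q 𝔓 →
      (𝔓.valuation L θ = 1 → U0 𝔓 ((Q : L) * θ)
        (aeval (((d * ∏ Q ∈ J, Q : ℤ) : L) * θ) h)) ∧
      (𝔓.valuation L θ < 1 →
        Ev 𝔓 (aeval (((d * ∏ Q ∈ J, Q : ℤ) : L) * θ) h)) := by
    intro Q hQ 𝔓 h𝔓
    have hQS := hJ hQ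
    obtain ⟨w, hw, hO⟩ := H.lie ℚ L ℤ O 𝔓
    have hQw : Ov Q w := (hO Q).2 h𝔓
    have h2w : ¬ Ov 2 w := fun h => hST Q hQS
      ((below_unique (hS Q hQS).1 (hT' 2 hT.1) hQw h) ▸ hT.1)
    have h3w : ¬ Ov 3 w := fun h => hST Q hQS
      ((below_unique (hS Q hQS).1 (hT' 3 hT.2.1) hQw h) ▸ hT.2.1)
    haveI : Finite (ℤ ⧸ w.asIdeal) :=
      Pool.Agent.N42.PQ.finite_residue (L := ℚ) (hS Q hQS).1.2.ne_zero hQw
    have hprod : (d * ∏ P ∈ J, P) = Q * (d * ∏ P ∈ J.erase Q, P) := by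
      have := (Finset.mul_prod_erase J id hQ).symm
      simp only [id] at this
      rw [this]
      ring
    have hϖ : w.valuation ℚ (Q : ℚ) = WithZero.exp (-1 : ℤ) := by
      refine le_antisymm (val_le_exp w ?_ ((ov_val Q w).1 hQw)) ?_
      · exact_mod_cast (hS Q hQS).1.2.ne_zero
      · exact val_sqfree (hS Q hQS).1.2.irreducible.squarefree w
    have hD' : w.valuation ℚ (((d * ∏ P ∈ J.erase Q, P : ℤ)) : ℚ) = 1 := by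
      refine val_eq_of _ w fun h => ?_
      rcases ov_mul h with h | h
      · have hnd := not_dvd_d hS hF hdP hQS
        exact one_mem_of (((hS Q hQS).1.2.irreducible.coprime_iff_not_dvd).2 hnd) hQw h
      · obtain ⟨P, hP, hP'⟩ := ov_prod h
        have hPS := hJ (Finset.mem_of_mem_erase hP)
        exact Finset.ne_of_mem_erase hP (below_unique (hS P hPS).1 (hS Q hQS).1 hP' hQw)
    have hb1 : w.valuation ℚ (b : ℚ) < 1 := by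
      rw [← ov_val]
      obtain ⟨c, hc⟩ := hF.rb Q hQS
      unfold Ov at hQw ⊢
      rw [hc, Int.cast_mul]
      exact Ideal.mul_mem_right _ _ hQw
    have hns : ∀ z : ℚ, w.valuation ℚ z ≤ 1 → ¬ w.valuation ℚ (z ^ 2 + (a : ℚ)) < 1 := by
      intro z hz hlt
      obtain ⟨z₁, hz₁⟩ := poly_approx w hz
      have e0 : algebraMap ℤ ℚ z₁ = (z₁ : ℚ) := by simp
      rw [e0] at hz₁
      have h3 : w.valuation ℚ (((z₁ ^ 2 + a : ℤ)) : ℚ) < 1 := by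
        have e : (((z₁ ^ 2 + a : ℤ)) : ℚ) = (z ^ 2 + (a : ℚ)) -
            (z - (z₁ : ℚ)) * (z + (z₁ : ℚ)) := by
          push_cast
          ring
        rw [e]
        refine lt_of_le_of_lt (Valuation.map_sub _ _ _) (max_lt hlt ?_)
        rw [map_mul]
        have h4 : w.valuation ℚ (z + (z₁ : ℚ)) ≤ 1 :=
          (Valuation.map_add _ _ _).trans (max_le hz (val_le z₁ w))
        exact lt_of_le_of_lt (mul_le_mul' le_rfl h4) (by rwa [mul_one])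
      have h5 : Ov (z₁ ^ 2 + a) w := (ov_val (L := ℚ) _ w).2 h3
      apply fam_ns hS hF hQS z₁
      by_contra hnd
      exact one_mem_of (((hS Q hQS).1.2.irreducible.coprime_iff_not_dvd).2 hnd) hQw h5
    have e1 : (((a * (d * ∏ Q ∈ J, Q) ^ 2 : ℤ)) : ℚ) = (a : ℚ) *
        ((Q : ℚ) * (((d * ∏ P ∈ J.erase Q, P : ℤ)) : ℚ)) ^ 2 := by
      rw [hprod]
      simp only [Int.cast_mul, Int.cast_pow]
    have e2 : (((b * (d * ∏ Q ∈ J, Q) ^ 3 : ℤ)) : ℚ) = (b : ℚ) *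
        ((Q : ℚ) * (((d * ∏ P ∈ J.erase Q, P : ℤ)) : ℚ)) ^ 3 := by
      rw [hprod]
      simp only [Int.cast_mul, Int.cast_pow]
    have e3 : algebraMap ℚ L ((Q : ℚ) * (((d * ∏ P ∈ J.erase Q, P : ℤ)) : ℚ)) =
        (((d * ∏ P ∈ J, P : ℤ)) : L) := by
      rw [hprod, map_mul, map_intCast, map_intCast]
      push_cast
      ring
    have hl := hloc w h2w
    rw [e1, e2] at hl
    have h2 := H.loc2 ℚ L ℤ O w 𝔓 hw (a : ℚ) (b : ℚ)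
      (Q : ℚ) (((d * ∏ P ∈ J.erase Q, P : ℤ)) : ℚ) θ h hroot
      (val_six h2w h3w) (val_le a w) hb1 hϖ hD' hns hl (by rw [e3]; exact h0)
    rw [e3, map_intCast (algebraMap ℚ L)] at h2
    refine ⟨fun h3 => h2.1 h3 ?_, h2.2⟩
    obtain ⟨𝔓₁, 𝔮, h3', h4, h5, h7, h8, h9⟩ := H.exq L O a b θ hc hF.sq Q (hS Q hQS).1.2
      (hF.rb Q hQS) (fam_ns hS hF hQS)
    rcases h9 𝔓 h𝔓 with rfl | rfl
    · exact absurd h3 h5.ne
    · exact h8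
  refine ⟨fun 𝔓 h2 => ?_, fun Q hQ 𝔓 h1 h2 => (key Q hQ 𝔓 h1).1 h2,
    fun Q hQ 𝔓 h1 h2 => (key Q hQ 𝔓 h1).2 h2⟩
  obtain ⟨P, hP, hP𝔓⟩ := exists_below 𝔓
  by_cases hPr : ∀ z : ℤ, ¬ P ∣ z ^ 3 + a * z + b
  · exact H.p3 L O a b θ hc hF.sq P hP.2 hPr _ h0 hN 𝔓 hP𝔓
  obtain ⟨w, hw, hO⟩ := H.lie ℚ L ℤ O 𝔓
  have hPw : Ov P w := (hO P).2 hP𝔓
  have hnT : ∀ R ∈ T, ¬ Ov R w := by
    intro R hR h
    have := below_unique hP (hT' R hR) hPw h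
    rw [this] at hPr
    exact hPr (hnr R hR)
  have hD : w.valuation ℚ (((d * ∏ Q ∈ J, Q : ℤ)) : ℚ) = 1 := by
    refine val_eq_of _ w fun h => ?_
    rcases ov_mul h with h | h
    · have hnd : ¬ P ∣ d := fun h => hPr (hdP P hP h)
      exact one_mem_of ((hP.2.irreducible.coprime_iff_not_dvd).2 hnd) hPw h
    · obtain ⟨Q, hQ, h'⟩ := ov_prod h
      exact h2 Q hQ ((hO Q).1 h')
  have hdisc : WithZero.exp (-1 : ℤ) ≤ w.valuation ℚ (4 * (a : ℚ) ^ 3 +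
      27 * (b : ℚ) ^ 2) := by
    have e : 4 * (a : ℚ) ^ 3 + 27 * (b : ℚ) ^ 2 = ((dsc a b : ℤ) : ℚ) := by
      simp [dsc]
    rw [e]
    exact val_sqfree hF.sq w
  have e3 : algebraMap ℚ L (((d * ∏ P ∈ J, P : ℤ)) : ℚ) = (((d * ∏ P ∈ J, P : ℤ)) : L) :=
    map_intCast _ _
  have hl := hloc w (hnT 2 hT.1)
  have hl' : PLc w ((a : ℚ) * (((d * ∏ Q ∈ J, Q : ℤ)) : ℚ) ^ 2)
      ((b : ℚ) * (((d * ∏ Q ∈ J, Q : ℤ)) : ℚ) ^ 3) h := by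
    have e1 : (((a * (d * ∏ Q ∈ J, Q) ^ 2 : ℤ)) : ℚ) = (a : ℚ) * (((d * ∏ Q ∈ J, Q : ℤ)) : ℚ) ^ 2 := by
      simp only [Int.cast_mul, Int.cast_pow]
    have e2 : (((b * (d * ∏ Q ∈ J, Q) ^ 3 : ℤ)) : ℚ) = (b : ℚ) * (((d * ∏ Q ∈ J, Q : ℤ)) : ℚ) ^ 3 := by
      simp only [Int.cast_mul, Int.cast_pow]
    rw [← e1, ← e2]
    exact hl
  have h3 := H.loc1 ℚ L ℤ O w 𝔓 hw (a : ℚ) (b : ℚ)
    (((d * ∏ P ∈ J, P : ℤ)) : ℚ) θ h hroot
    (val_six (hnT 2 hT.1) (hnT 3 hT.2.1)) (val_le a w) (val_le b w) hD hdisc hl'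
    (by rw [e3]; exact h0)
  rw [e3] at h3
  exact h3

end conds


section two

theorem comp_dvd {P Q : ℚ_[2][X]} (q : ℚ_[2][X]) (h : P ∣ Q) : P.comp q ∣ Q.comp q := by
  obtain ⟨R, rfl⟩ := h
  exact ⟨R.comp q, by rw [mul_comp]⟩

theorem cub_comp (a b m : ℤ) : (X ^ 3 + C ((((a * m ^ 2 : ℤ)) : ℚ_[2])) * X +
    C ((((b * m ^ 3 : ℤ)) : ℚ_[2])) : ℚ_[2][X]).comp (C (m : ℚ_[2]) * X) =
    C ((m : ℚ_[2]) ^ 3) * ff ℚ_[2] a b := by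
  unfold ff
  simp only [add_comp, mul_comp, pow_comp, X_comp, C_comp, Int.cast_mul, Int.cast_pow, map_mul,
    map_pow]
  ring

/-- The condition at `2` over `ℚ_2`. -/
theorem plt_of_plc {R M : Type} [CommRing R] [IsDedekindDomain R] [Field M] [Algebra R M]
    [IsFractionRing R M] (w : HeightOneSpectrum R) (j : w.adicCompletion M →+* ℚ_[2])
    (φ : M →+* ℚ_[2]) (hj : ∀ x : M, j (algebraMap M (w.adicCompletion M) x) = φ x) {a b m : ℤ}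
    (h : M[X]) (hP : PLc w (((a * m ^ 2 : ℤ)) : M) (((b * m ^ 3 : ℤ)) : M) h) :
    PLt a b m ((h.map φ).comp (C (m : ℚ_[2]) * X)) := by
  have hjφ : (h.map (algebraMap M (w.adicCompletion M))).map j = h.map φ := by
    rw [Polynomial.map_map]
    congr 1
    exact RingHom.ext hj
  have hF : (X ^ 3 + C (algebraMap M (w.adicCompletion M) (((a * m ^ 2 : ℤ)) : M)) * X +
      C (algebraMap M (w.adicCompletion M) (((b * m ^ 3 : ℤ)) : M)) :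
        (w.adicCompletion M)[X]).map j = X ^ 3 + C ((((a * m ^ 2 : ℤ)) : ℚ_[2])) * X +
      C ((((b * m ^ 3 : ℤ)) : ℚ_[2])) := by
    simp only [Polynomial.map_add, Polynomial.map_mul, Polynomial.map_pow, Polynomial.map_X,
      Polynomial.map_C, hj, map_intCast, Polynomial.map_intCast]
  unfold PLc PLoc at hP
  rcases hP with ⟨g, hg⟩ | ⟨x, y, hy, hxy, g, hg⟩
  · left
    refine ⟨(g.map j).comp (C (m : ℚ_[2]) * X), ?_⟩
    have h1 := Polynomial.map_dvd j hg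
    rw [hF, Polynomial.map_sub, Polynomial.map_pow, hjφ] at h1
    have h2 := comp_dvd (C (m : ℚ_[2]) * X) h1
    rw [cub_comp, sub_comp, pow_comp] at h2
    exact dvd_of_mul_left_dvd h2
  · right
    refine ⟨j x, j y, ?_, ?_, (g.map j).comp (C (m : ℚ_[2]) * X), ?_⟩
    · intro h0
      exact hy ((map_eq_zero j).1 h0)
    · have h1 := congrArg j hxy
      simp only [map_add, map_mul, map_pow, map_intCast] at h1
      rw [h1]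
      push_cast
      ring
    · have h1 := Polynomial.map_dvd j hg
      rw [hF, Polynomial.map_sub, Polynomial.map_mul, Polynomial.map_sub, Polynomial.map_C,
        Polynomial.map_X, Polynomial.map_pow, hjφ] at h1
      have h2 := comp_dvd (C (m : ℚ_[2]) * X) h1
      rw [cub_comp, sub_comp, pow_comp, mul_comp, sub_comp, C_comp, X_comp] at h2
      exact dvd_of_mul_left_dvd h2

end two

section coc

theorem irr_tw2 {a b : ℤ} (h2 : ∀ z : ℤ, ¬ (2 : ℤ) ∣ z ^ 3 + a * z + b) {D : ℤ} (hD : D ≠ 0) :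
    Irreducible (X ^ 3 + C ((((a * D ^ 2 : ℤ)) : ℚ)) * X + C ((((b * D ^ 3 : ℤ)) : ℚ)) : ℚ[X]) :=
  irr_tw (algebraMap ℚ ℚ_[2]) h2 hD

variable {L : Type} [Field L] [NumberField L] (O : Type)
  [CommRing O] [IsDedekindDomain O] [Algebra O L] [IsFractionRing O L] [IsIntegralClosure O ℤ L]

/-- The data of a class in the 2-Selmer group of the twist by `m`. -/
structure Cls (a b m : ℤ) (θ : L) (f : (Sep ℚ ≃ₐ[ℚ] Sep ℚ) →
    Pt (sW (((a * m ^ 2 : ℤ)) : ℚ) (((b * m ^ 3 : ℤ)) : ℚ)) (Sep ℚ)) (β : Sep ℚ → Sep ℚ)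
    (h : ℚ[X]) : Prop where
  beta : IsBeta (((a * m ^ 2 : ℤ)) : ℚ) (((b * m ^ 3 : ℤ)) : ℚ) f β
  hh : ∀ t : Sep ℚ, Rt (((a * m ^ 2 : ℤ)) : ℚ) (((b * m ^ 3 : ℤ)) : ℚ) t → aeval t h = β t ^ 2
  ne : aeval ((m : L) * θ) h ≠ 0
  sq : IsSquare (Algebra.norm ℚ (aeval ((m : L) * θ) h))

/-- Selmer cocycles. -/
structure IsSel (a b m : ℤ) (f : (Sep ℚ ≃ₐ[ℚ] Sep ℚ) →
    Pt (sW (((a * m ^ 2 : ℤ)) : ℚ) (((b * m ^ 3 : ℤ)) : ℚ)) (Sep ℚ)) : Prop where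
  coc : IsCoc (sW (((a * m ^ 2 : ℤ)) : ℚ) (((b * m ^ 3 : ℤ)) : ℚ)) f
  two : ∀ σ, (2 : ℕ) • f σ = 0
  loc : ∀ v : HeightOneSpectrum ℤ, LocTriv (sW (((a * m ^ 2 : ℤ)) : ℚ) (((b * m ^ 3 : ℤ)) : ℚ))
    (Comp ℤ ℚ v) (Sep (Comp ℤ ℚ v)) f

theorem disc_ne {a b m : ℤ} (hm : m ≠ 0) (hd : dsc a b ≠ 0) :
    4 * (((a * m ^ 2 : ℤ)) : ℚ) ^ 3 + 27 * (((b * m ^ 3 : ℤ)) : ℚ) ^ 2 ≠ 0 := by
  have e : 4 * (((a * m ^ 2 : ℤ)) : ℚ) ^ 3 + 27 * (((b * m ^ 3 : ℤ)) : ℚ) ^ 2 =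
      ((m ^ 6 * dsc a b : ℤ) : ℚ) := by
    simp only [dsc, Int.cast_mul, Int.cast_add, Int.cast_pow, Int.cast_ofNat]
    ring
  rw [e, Int.cast_ne_zero]
  exact mul_ne_zero (pow_ne_zero _ hm) hd

theorem rt_mt {a b : ℤ} {θ : L} (hc : IsCub a b θ) (m : ℤ) :
    Rt (((a * m ^ 2 : ℤ)) : ℚ) (((b * m ^ 3 : ℤ)) : ℚ) ((m : L) * θ) := by
  unfold Rt
  rw [map_intCast, map_intCast]
  simp only [Int.cast_mul, Int.cast_pow]
  linear_combination (m : L) ^ 3 * hc.root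

theorem exists_cls (H : Parts) {a b m : ℤ} {θ : L} (hc : IsCub a b θ) (hm : m ≠ 0)
    (hd : dsc a b ≠ 0) (h2 : ∀ z : ℤ, ¬ (2 : ℤ) ∣ z ^ 3 + a * z + b) {f : (Sep ℚ ≃ₐ[ℚ] Sep ℚ) →
    Pt (sW (((a * m ^ 2 : ℤ)) : ℚ) (((b * m ^ 3 : ℤ)) : ℚ)) (Sep ℚ)} (hf : IsSel a b m f) :
    ∃ β h, Cls a b m θ f β h := by
  have h6 : (6 : ℚ) ≠ 0 := by norm_num
  obtain ⟨β, hβ⟩ := H.gb ℚ _ _ h6 (disc_ne hm hd) (irr_tw2 h2 hm) f hf.coc hf.two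
  obtain ⟨h, hh, hn⟩ := H.gn ℚ _ _ h6 (disc_ne hm hd) (irr_tw2 h2 hm) f hf.coc hf.two β hβ
  obtain ⟨h3, h4⟩ := hn L _ (rt_mt hc m) hc.rank
  exact ⟨β, h, hβ, hh, h3, h4⟩

theorem locT_of (H : Parts) {a b m : ℤ} {θ : L} (hc : IsCub a b θ) (hm : m ≠ 0)
    (hd : dsc a b ≠ 0) (h2 : ∀ z : ℤ, ¬ (2 : ℤ) ∣ z ^ 3 + a * z + b) {f : (Sep ℚ ≃ₐ[ℚ] Sep ℚ) →
    Pt (sW (((a * m ^ 2 : ℤ)) : ℚ) (((b * m ^ 3 : ℤ)) : ℚ)) (Sep ℚ)} (hf : IsSel a b m f)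
    {β : Sep ℚ → Sep ℚ} {h : ℚ[X]} (hC : Cls a b m θ f β h) :
    LocT a b m θ (aeval ((m : L) * θ) h) := by
  intro h' hh'
  have h6 : (6 : ℚ) ≠ 0 := by norm_num
  obtain ⟨w, j, hj⟩ := H.emb ℚ ℤ (algebraMap ℚ ℚ_[2])
  have hPL := H.glr2 ℚ ℤ _ _ h6 (disc_ne hm hd) f hf.coc hf.two β h hC.beta hC.hh w (fun t ht => by
    apply no_root_tw j h2 hm t
    rw [map_intCast, map_intCast] at ht
    exact ht) (hf.loc w)
  have h3 := plt_of_plc w j (algebraMap ℚ ℚ_[2]) hj h hPL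
  refine plt_congr ?_ h3
  have e : aeval θ (h.comp (C (m : ℚ) * X)) = aeval θ h' := by
    rw [hh', aeval_comp, map_mul, aeval_X, aeval_C, map_intCast]
  have h4 := Pool.Agent.N951.PV.cast_congr hc ℚ_[2] e
  have h5 : (h.comp (C (m : ℚ) * X)).map (algebraMap ℚ ℚ_[2]) =
      (h.map (algebraMap ℚ ℚ_[2])).comp (C (m : ℚ_[2]) * X) := by
    rw [Polynomial.map_comp, Polynomial.map_mul, Polynomial.map_C, Polynomial.map_X, map_intCast]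
  rw [h5] at h4
  exact h4

end coc

end Pool.Agent.K6.H88.TW
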