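import Pool.Agent.K6.H88.TW.Sel

/-!
# The 2-Selmer groups over `ℚ` of the twists: the trivial classes (helper88)
-/

set_option autoImplicit false
set_option linter.all false

open Polynomial IsDedekindDomain WeierstrassCurve WeierstrassCurve.Affine NumberField
open Pool.Agent.TH115.GD
open scoped Classical

namespace Pool.Agent.K6.H88.TW

open Pool.Agent.N922.PQ
open Pool.Agent.N874.PP (Tup chA chB gq tau Two Ev Sq1 U0 sW IsBeta Rt sg)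
open Pool.Agent.N874.PM (PLoc Lies SelR ShaR)

section gen

variable {M : Type} [Field M] (R : Type) [CommRing R] [IsDedekindDomain R] [Algebra R M]
  [IsFractionRing R M] {A B : M}

/-- Selmer cocycles. -/
def SelC (f : (Sep M ≃ₐ[M] Sep M) → Pt (sW A B) (Sep M)) : Prop :=
  IsCoc (sW A B) f ∧ (∀ σ, (2 : ℕ) • f σ = 0) ∧
    ∀ v : HeightOneSpectrum R, LocTriv (sW A B) (Comp R M v) (Sep (Comp R M v)) f

/-- The trivial cocycles. -/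
def TrivC (f : (Sep M ≃ₐ[M] Sep M) → Pt (sW A B) (Sep M)) : Prop :=
  ∃ T : Pt (sW A B) (Sep M), (2 : ℕ) • T = 0 ∧ ∀ σ, f σ = act (sW A B) (rs M σ) T - T

theorem div_of_triv {P : Pt (sW A B) M} {Q0 : Pt (sW A B) (Sep M)}
    (hR : Q0 + Q0 = act (sW A B) (incl M M (Sep M)) P)
    {f : (Sep M ≃ₐ[M] Sep M) → Pt (sW A B) (Sep M)}
    (hf : ∀ σ, f σ = act (sW A B) (rs M σ) Q0 - Q0)
    (hT : TrivC f) : ∃ Q : Pt (sW A B) M, P = (2 : ℕ) • Q := by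
  haveI : Algebra.IsSeparable M (Sep M) := IsSepClosure.separable
  haveI : IsGalois M (Sep M) := inferInstance
  obtain ⟨T, hT2, hT⟩ := hT
  obtain ⟨Q, hQ⟩ := fixed_point (K := M) (F := M) (sW A B) (Q0 - T) (fun σ => by
    have h1 := hT σ
    rw [hf] at h1
    rw [map_sub]
    have h2 : act (sW A B) (rs M σ) Q0 = Q0 + (act (sW A B) (rs M σ) T - T) := by
      rw [← h1]; abel
    rw [h2]; abel)
  refine ⟨Q, act_inj (sW A B) (incl M M (Sep M)) ?_⟩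
  rw [map_nsmul, hQ, smul_sub, hT2, sub_zero, two_nsmul, hR]

theorem selC_pt {P : Pt (sW A B) M} {Q0 : Pt (sW A B) (Sep M)}
    (hR : Q0 + Q0 = act (sW A B) (incl M M (Sep M)) P) :
    SelC R (fun σ : Sep M ≃ₐ[M] Sep M => act (sW A B) (rs M σ) Q0 - Q0) := by
  haveI : Algebra.IsSeparable M (Sep M) := IsSepClosure.separable
  haveI : IsGalois M (Sep M) := inferInstance
  refine ⟨cob_isCoc _ Q0, fun σ => ?_, fun v => Pool.Agent.N650.PM.cobLocR _ v Q0⟩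
  have hfix : act (sW A B) (rs M σ) (Q0 + Q0) = Q0 + Q0 := by
    rw [hR]; exact rs_act_incl _ σ P
  rw [two_nsmul, sub_add_sub_comm, ← map_add, hfix, sub_self]

theorem two_pts (h6 : (6 : M) ≠ 0) (hd : 4 * A ^ 3 + 27 * B ^ 2 ≠ 0) (P P' : Pt (sW A B) M) :
    ∃ f f' : (Sep M ≃ₐ[M] Sep M) → Pt (sW A B) (Sep M), SelC R f ∧ SelC R f' ∧
      SelC R (fun σ => f σ + f' σ) ∧ (TrivC f → ∃ Q : Pt (sW A B) M, P = (2 : ℕ) • Q) ∧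
      (TrivC f' → ∃ Q : Pt (sW A B) M, P' = (2 : ℕ) • Q) ∧
      (TrivC (fun σ => f σ + f' σ) → ∃ Q : Pt (sW A B) M, P + P' = (2 : ℕ) • Q) := by
  obtain ⟨Q0, hR⟩ := Pool.Agent.N721.PP.half h6 hd (act (sW A B) (incl M M (Sep M)) P)
  obtain ⟨Q0', hR'⟩ := Pool.Agent.N721.PP.half h6 hd (act (sW A B) (incl M M (Sep M)) P')
  have hR'' : (Q0 + Q0') + (Q0 + Q0') = act (sW A B) (incl M M (Sep M)) (P + P') := by
    rw [map_add, ← hR, ← hR']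
    abel
  have e : ∀ σ : Sep M ≃ₐ[M] Sep M, (act (sW A B) (rs M σ) Q0 - Q0) +
      (act (sW A B) (rs M σ) Q0' - Q0') =
        act (sW A B) (rs M σ) (Q0 + Q0') - (Q0 + Q0') := by
    intro σ
    rw [map_add]
    abel
  refine ⟨fun σ => act (sW A B) (rs M σ) Q0 - Q0, fun σ => act (sW A B) (rs M σ) Q0' - Q0',
    selC_pt R hR, selC_pt R hR', ?_, div_of_triv hR fun σ => rfl, div_of_triv hR' fun σ => rfl,
    div_of_triv hR'' e⟩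
  have h3 := selC_pt R hR''
  have e2 : (fun σ : Sep M ≃ₐ[M] Sep M => act (sW A B) (rs M σ) (Q0 + Q0') - (Q0 + Q0')) =
      fun σ => (act (sW A B) (rs M σ) Q0 - Q0) + (act (sW A B) (rs M σ) Q0' - Q0') :=
    funext fun σ => (e σ).symm
  rw [e2] at h3
  exact h3

/-- The group of points modulo two has at most two elements. -/
def AtMostTwo (A B : M) : Prop := ∀ P P' : Pt (sW A B) M, (∃ Q : Pt (sW A B) M, P = (2 : ℕ) • Q) ∨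
  (∃ Q : Pt (sW A B) M, P' = (2 : ℕ) • Q) ∨ ∃ Q : Pt (sW A B) M, P + P' = (2 : ℕ) • Q

theorem atMostTwo (h6 : (6 : M) ≠ 0) (hd : 4 * A ^ 3 + 27 * B ^ 2 ≠ 0)
    (hf : ∀ f f' : (Sep M ≃ₐ[M] Sep M) → Pt (sW A B) (Sep M), SelC R f → SelC R f' →
      SelC R (fun σ => f σ + f' σ) → TrivC f ∨ TrivC f' ∨ TrivC (fun σ => f σ + f' σ)) :
    AtMostTwo A B := by
  intro P P'
  obtain ⟨f, f', k, k', k'', l, l', l''⟩ := two_pts (R := R) h6 hd P P'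
  rcases hf f f' k k' k'' with h | h | h
  · exact Or.inl (l h)
  · exact Or.inr (Or.inl (l' h))
  · exact Or.inr (Or.inr (l'' h))

end gen

section triv

variable {L : Type} [Field L] [NumberField L] (O : Type)
  [CommRing O] [IsDedekindDomain O] [Algebra O L] [IsFractionRing O L] [IsIntegralClosure O ℤ L]

/-- The property of `J` given by the core theorem. -/
def CoreP (a b : ℤ) (θ : L) (J : Finset ℤ) : Prop :=
  ∀ α : L, α ≠ 0 → IsSquare (Algebra.norm ℚ α) → Loc2 a b θ α →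
      (∀ 𝔓 : HeightOneSpectrum O, (∀ Q ∈ J, ¬ Ov Q 𝔓) → Ev 𝔓 α) →
      (∀ Q ∈ J, ∀ 𝔓 : HeightOneSpectrum O, Ov Q 𝔓 → 𝔓.valuation L θ = 1 →
        U0 𝔓 ((Q : L) * θ) α) →
      (∀ Q ∈ J, ∀ 𝔓 : HeightOneSpectrum O, Ov Q 𝔓 → 𝔓.valuation L θ < 1 → Ev 𝔓 α) →
      IsSquare α

/-- The hypotheses on the curve and on the twist. -/
structure Hyp (a b d : ℤ) (θ : L) (X' : ℕ) (S J T : Finset ℤ) (s A B : ℤ → ℤ) : Prop where
  hc : IsCub a b θ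
  hS : GoodS S s
  hF : Fam X' S s T A B a b
  hT : GoodT T A B
  hJ : J ⊆ S
  hd : Inert a b d
  hd0 : d ≠ 0
  core : CoreP O a b θ J
  ha : a % 4 = 3
  hb : b % 4 = 3

variable {O} {a b d : ℤ} {θ : L} {X' : ℕ} {S J T : Finset ℤ} {s A B : ℤ → ℤ}

theorem Hyp.m0 (G : Hyp O a b d θ X' S J T s A B) : (d * ∏ Q ∈ J, Q) ≠ 0 := by
  refine mul_ne_zero G.hd0 ?_
  rw [Finset.prod_ne_zero_iff]
  exact fun Q hQ => (G.hS Q (G.hJ hQ)).1.2.ne_zero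

theorem Hyp.nt2 (G : Hyp O a b d θ X' S J T s A B) : ∀ z : ℤ, ¬ (2 : ℤ) ∣ z ^ 3 + a * z + b :=
  fam_nt G.hT G.hF G.hT.1

/-- The trivial cocycles. -/
def Triv {m : ℤ} (f : (Sep ℚ ≃ₐ[ℚ] Sep ℚ) →
    Pt (sW (((a * m ^ 2 : ℤ)) : ℚ) (((b * m ^ 3 : ℤ)) : ℚ)) (Sep ℚ)) : Prop :=
  ∃ T : Pt (sW (((a * m ^ 2 : ℤ)) : ℚ) (((b * m ^ 3 : ℤ)) : ℚ)) (Sep ℚ), (2 : ℕ) • T = 0 ∧
    ∀ σ, f σ = act (sW (((a * m ^ 2 : ℤ)) : ℚ) (((b * m ^ 3 : ℤ)) : ℚ)) (rs ℚ σ) T - T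

theorem triv_of_even (H : Parts) (G : Hyp O a b d θ X' S J T s A B)
    {f : (Sep ℚ ≃ₐ[ℚ] Sep ℚ) →
    Pt (sW (((a * (d * ∏ Q ∈ J, Q) ^ 2 : ℤ)) : ℚ) (((b * (d * ∏ Q ∈ J, Q) ^ 3 : ℤ)) : ℚ)) (Sep ℚ)}
    (hf : IsSel a b (d * ∏ Q ∈ J, Q) f) {β : Sep ℚ → Sep ℚ} {h : ℚ[X]}
    (hC : Cls a b (d * ∏ Q ∈ J, Q) θ f β h) {c : L} {g₁ g₂ : ℤ} {r s' t : ℚ}
    (hN : NFm θ (aeval (((d * ∏ Q ∈ J, Q : ℤ) : L) * θ) h) c g₁ g₂ r s' t) (hg : Even g₂) :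
    Triv f := by
  have h6 : (6 : ℚ) ≠ 0 := by norm_num
  have hl2 := loc2_of_nf G.hc G.ha G.hb hN hg
  obtain ⟨c1, c2, c3⟩ := conds O H G.hc G.hS G.hF G.hT G.hJ G.hd (h := h)
    (fun w hw => H.glr ℚ ℤ _ _ h6 (disc_ne G.m0 G.hF.sq.ne_zero) f hf.coc hf.two β h hC.beta hC.hh w
      (val_two hw) (hf.loc w)) hC.ne hC.sq
  have hsq := G.core _ hC.ne hC.sq hl2 c1 c2 c3
  exact H.gt ℚ _ _ h6 (disc_ne G.m0 G.hF.sq.ne_zero) (irr_tw2 G.nt2 G.m0) f hf.coc hf.two β h hC.beta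
    hC.hh L _ (rt_mt G.hc _) G.hc.rank hsq

/-- The 2-Selmer group of the twist by `m`, not of the form `Th`, is zero. -/
theorem selR_tw (H : Parts) (G : Hyp O a b d θ X' S J T s A B) (hTh : ¬ Th (d * ∏ Q ∈ J, Q)) :
    SelR ℤ (sW (((a * (d * ∏ Q ∈ J, Q) ^ 2 : ℤ)) : ℚ)
      (((b * (d * ∏ Q ∈ J, Q) ^ 3 : ℤ)) : ℚ)) := by
  intro f hf h2f hloc
  have hf' : IsSel a b (d * ∏ Q ∈ J, Q) f := ⟨hf, h2f, hloc⟩
  obtain ⟨β, h, hC⟩ := exists_cls (L := L) H G.hc G.m0 G.hF.sq.ne_zero G.nt2 hf'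
  obtain ⟨c, g₁, g₂, r, s', t, hN, h1, -⟩ := nf_of_locT G.hc G.ha G.hb G.m0 hC.ne hC.sq
    (locT_of H G.hc G.m0 G.hF.sq.ne_zero G.nt2 hf' hC)
  exact triv_of_even H G hf' hC hN (h1 hTh)

/-- The sum of two Selmer cocycles with nontrivial classes is trivial. -/
theorem sel_sum (H : Parts) (G : Hyp O a b d θ X' S J T s A B) (hTh : Th (d * ∏ Q ∈ J, Q))
    {f f' : (Sep ℚ ≃ₐ[ℚ] Sep ℚ) →
    Pt (sW (((a * (d * ∏ Q ∈ J, Q) ^ 2 : ℤ)) : ℚ) (((b * (d * ∏ Q ∈ J, Q) ^ 3 : ℤ)) : ℚ)) (Sep ℚ)}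
    (hf : IsSel a b (d * ∏ Q ∈ J, Q) f) (hf' : IsSel a b (d * ∏ Q ∈ J, Q) f')
    (hf'' : IsSel a b (d * ∏ Q ∈ J, Q) (fun σ => f σ + f' σ)) :
    Triv f ∨ Triv f' ∨ Triv (fun σ => f σ + f' σ) := by
  have h6 : (6 : ℚ) ≠ 0 := by norm_num
  obtain ⟨β, h, hC⟩ := exists_cls (L := L) H G.hc G.m0 G.hF.sq.ne_zero G.nt2 hf
  obtain ⟨β', h', hC'⟩ := exists_cls (L := L) H G.hc G.m0 G.hF.sq.ne_zero G.nt2 hf'
  obtain ⟨c, g₁, g₂, r, s', t, hN, -, h1⟩ := nf_of_locT G.hc G.ha G.hb G.m0 hC.ne hC.sq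
    (locT_of H G.hc G.m0 G.hF.sq.ne_zero G.nt2 hf hC)
  obtain ⟨c', g₁', g₂', r', s'', t', hN', -, h1'⟩ := nf_of_locT G.hc G.ha G.hb G.m0 hC'.ne hC'.sq
    (locT_of H G.hc G.m0 G.hF.sq.ne_zero G.nt2 hf' hC')
  rcases Int.even_or_odd g₂ with h2 | h2
  · exact Or.inl (triv_of_even H G hf hC hN h2)
  rcases Int.even_or_odd g₂' with h2' | h2'
  · exact Or.inr (Or.inl (triv_of_even H G hf' hC' hN' h2'))
  right; right
  have hC'' : Cls a b (d * ∏ Q ∈ J, Q) θ (fun σ => f σ + f' σ) (fun t => β t * β' t) (h * h') := by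
    refine ⟨?_, ?_, ?_, ?_⟩
    · intro t ht
      obtain ⟨b1, b2⟩ := hC.beta t ht
      obtain ⟨b1', b2'⟩ := hC'.beta t ht
      refine ⟨mul_ne_zero b1 b1', fun σ => ?_⟩
      obtain ⟨t₁, t₂, t₃, n12, n13, n23, r1, r2, r3, -⟩ := Pool.Agent.N187.PP.exists_roots h6
        (irr_tw2 G.nt2 G.m0)
      have hsg := (Pool.Agent.N630.PP.gp3 ℚ (Sep ℚ) _ _ h6 (disc_ne G.m0 G.hF.sq.ne_zero) t₁ t₂ t₃
        r1 r2 r3 n12 n13 n23).2.1 (f σ) (f' σ) (σ t) (hf.two σ) (hf'.two σ)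
        (Pool.Agent.N187.PP.rt_map' σ ht)
      rw [map_mul, b2 σ, b2' σ, hsg]
      ring
    · intro t ht
      rw [map_mul, hC.hh t ht, hC'.hh t ht, mul_pow]
    · rw [map_mul]
      exact mul_ne_zero hC.ne hC'.ne
    · rw [map_mul, map_mul]
      exact hC.sq.mul hC'.sq
  obtain ⟨c'', g₁'', g₂'', r'', s''', t'', hN'', -, -⟩ := nf_of_locT G.hc G.ha G.hb G.m0 hC''.ne
    hC''.sq (locT_of H G.hc G.m0 G.hF.sq.ne_zero G.nt2 hf'' hC'')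
  refine triv_of_even H G hf'' hC'' hN'' ?_
  rw [map_mul] at hN''
  have o1 : Odd g₁ := by
    have := (h1 hTh).add_odd h2
    rwa [sub_add_cancel] at this
  have o1' : Odd g₁' := by
    have := (h1' hTh).add_odd h2'
    rwa [sub_add_cancel] at this
  exact nf_mul_odd G.hc G.ha G.hb hN hN' hN'' o1 h2 o1' h2'

/-- Two points: one of them or their sum is divisible by two. -/
theorem pts_tw (H : Parts) (G : Hyp O a b d θ X' S J T s A B) (hTh : Th (d * ∏ Q ∈ J, Q)) :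
    AtMostTwo (((a * (d * ∏ Q ∈ J, Q) ^ 2 : ℤ)) : ℚ) (((b * (d * ∏ Q ∈ J, Q) ^ 3 : ℤ)) : ℚ) := by
  refine atMostTwo ℤ (by norm_num) (disc_ne G.m0 G.hF.sq.ne_zero) fun f f' k k' k'' => ?_
  exact sel_sum H G hTh ⟨k.1, k.2.1, k.2.2⟩ ⟨k'.1, k'.2.1, k'.2.2⟩ ⟨k''.1, k''.2.1, k''.2.2⟩

end triv

end Pool.Agent.K6.H88.TW
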