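import Pool.Agent.N323.PV.CAL
import Pool.Agent.N951.PV.PT2
import Pool.Agent.N907.PV.NF2

/-!
# The local images at `2` of all the quadratic twists (helper88)

`a = b = 3` modulo `4`, `f = X ^ 3 + a X + b`, `θ` a zero of `f` (unramified of degree three over `ℚ_2`).
The class of `x - m θ` for a point `(x, y)` over `ℚ_2` of the twist `y ^ 2 = x ^ 3 + a m ^ 2 x + b m ^ 3` is
computed modulo `4`.
-/

set_option autoImplicit false
set_option linter.all false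

open Polynomial


namespace Pool.Agent.K6.H88.TW

open Pool.Agent.N922.PQ

/-- `m = 4 ^ k m'` with `m' = 3` modulo `4`. -/
def Th (m : ℤ) : Prop := ∃ (k : ℕ) (m' : ℤ), m = 4 ^ k * m' ∧ m' % 4 = 3

set_option synthInstance.maxSize 2000 in
theorem check4a : ∀ u t T0 T1 T2 G1 G2 : ZMod 4, ((u = 1 ∨ t = 1) ∧ 2 * G1 = 0 ∧ 2 * G2 = 0 ∧
    (u ^ 3 + 3 * u * t ^ 2 + 3 * t ^ 3) * (u + 3 * t * G2) = T0 ^ 2 - 2 * T1 * T2 * 3 ∧
    (u ^ 3 + 3 * u * t ^ 2 + 3 * t ^ 3) * (u * G1 - t + 3 * t * G2) =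
      2 * T0 * T1 - 2 * T1 * T2 * 3 - T2 ^ 2 * 3 ∧
    (u ^ 3 + 3 * u * t ^ 2 + 3 * t ^ 3) * (u * G2 - t * G1) =
      T1 ^ 2 + 2 * T0 * T2 - T2 ^ 2 * 3) →
    (((u ^ 3 + 3 * u * t ^ 2 + 3 * t ^ 3) * t = 3 → G1 = G2) ∧
      ((u ^ 3 + 3 * u * t ^ 2 + 3 * t ^ 3) * t ≠ 3 → G2 = 0) ∧ (t = 0 → G1 = 0)) := by
  decide +kernel

theorem check4 (u t T0 T1 T2 G1 G2 : ZMod 4) (h : u = 1 ∨ t = 1) (h1 : 2 * G1 = 0)
    (h2 : 2 * G2 = 0)
    (e0 : (u ^ 3 + 3 * u * t ^ 2 + 3 * t ^ 3) * (u + 3 * t * G2) = T0 ^ 2 - 2 * T1 * T2 * 3)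
    (e1 : (u ^ 3 + 3 * u * t ^ 2 + 3 * t ^ 3) * (u * G1 - t + 3 * t * G2) =
      2 * T0 * T1 - 2 * T1 * T2 * 3 - T2 ^ 2 * 3)
    (e2 : (u ^ 3 + 3 * u * t ^ 2 + 3 * t ^ 3) * (u * G2 - t * G1) =
      T1 ^ 2 + 2 * T0 * T2 - T2 ^ 2 * 3) :
    (((u ^ 3 + 3 * u * t ^ 2 + 3 * t ^ 3) * t = 3 → G1 = G2) ∧
      ((u ^ 3 + 3 * u * t ^ 2 + 3 * t ^ 3) * t ≠ 3 → G2 = 0) ∧ (t = 0 → G1 = 0)) :=
  check4a u t T0 T1 T2 G1 G2 ⟨h, h1, h2, e0, e1, e2⟩

theorem unit4 : ∀ u t : ZMod 4, (u = 1 ∨ t = 1) →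
    (u ^ 3 + 3 * u * t ^ 2 + 3 * t ^ 3) = 1 ∨ (u ^ 3 + 3 * u * t ^ 2 + 3 * t ^ 3) = 3 := by
  decide +kernel

/-- Reduction modulo `4`. -/
noncomputable def φ4 : ℤ_[2] →+* ZMod 4 := PadicInt.toZModPow 2

theorem φ4_even {g : ℤ} (h : (2 : ZMod 4) * (g : ZMod 4) = 0) : Even g := by
  have h1 : (((2 * g : ℤ)) : ZMod 4) = 0 := by
    push_cast
    exact h
  have h2 := (ZMod.intCast_zmod_eq_zero_iff_dvd _ 4).1 h1
  rw [even_iff_two_dvd]
  omega

theorem φ4_ker (x : ℤ_[2]) : φ4 x = 0 ↔ ‖x‖ ≤ 1 / 4 := by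
  have h1 : φ4 x = 0 ↔ x ∈ RingHom.ker (PadicInt.toZModPow (p := 2) 2) := by
    rw [RingHom.mem_ker]
    rfl
  rw [h1, PadicInt.ker_toZModPow, ← PadicInt.norm_le_pow_iff_mem_span_pow]
  norm_num
  
theorem norm_of_odd (x : ℤ_[2]) (h : φ4 x = 1 ∨ φ4 x = 3) : ‖x‖ = 1 := by
  by_contra hne
  have hlt : ‖x‖ < 1 := lt_of_le_of_ne (PadicInt.norm_le_one x) hne
  rw [PadicInt.norm_lt_one_iff_dvd] at hlt
  obtain ⟨y, hy⟩ := hlt
  have h1 := congrArg φ4 hy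
  rw [map_mul, map_natCast] at h1
  rcases h with h | h
  · rw [h] at h1
    revert h1
    generalize φ4 y = z
    revert z
    decide
  · rw [h] at h1
    revert h1
    generalize φ4 y = z
    revert z
    decide

theorem odd_of_norm (x : ℤ_[2]) (h : ‖x‖ = 1) : φ4 x = 1 ∨ φ4 x = 3 := by
  have h2 : ¬ (2 : ZMod 4) * φ4 x = 0 := by
    intro h0
    have h3 : φ4 (2 * x) = 0 := by rw [map_mul, map_ofNat]; exact h0
    rw [φ4_ker, norm_mul, h, mul_one] at h3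
    have e : ‖(2 : ℤ_[2])‖ = 1 / 2 := by
      have := PadicInt.norm_p (p := 2)
      rw [Nat.cast_ofNat] at this
      rw [this]
      norm_num
    rw [e] at h3
    norm_num at h3
  revert h2
  generalize φ4 x = z
  revert z
  decide


/-- `m z = y ^ 2` with a unit `z` which is `3` modulo `4`. -/
theorem th_of {m : ℤ} (hm : m ≠ 0) {z : ℤ_[2]} (hz : φ4 z = 3) {y : ℚ_[2]}
    (h : (m : ℚ_[2]) * (z : ℚ_[2]) = y ^ 2) : Th m := by
  obtain ⟨j, m', hj, hm'⟩ : ∃ (j : ℕ) (m' : ℤ), m = 2 ^ j * m' ∧ ¬ (2 : ℤ) ∣ m' := by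
    have hf : FiniteMultiplicity (2 : ℤ) m := by
      rw [Int.finiteMultiplicity_iff]
      exact ⟨by norm_num, hm⟩
    obtain ⟨m', h1, h2⟩ := hf.exists_eq_pow_mul_and_not_dvd
    exact ⟨_, m', h1, h2⟩
  have hz1 : ‖z‖ = 1 := norm_of_odd z (Or.inr hz)
  have hm1 : φ4 (m' : ℤ_[2]) = 1 ∨ φ4 (m' : ℤ_[2]) = 3 := by
    rw [map_intCast]
    have h1 : m' % 4 = 1 ∨ m' % 4 = 3 := by omega
    rcases h1 with h1 | h1
    · left
      have : ((m' : ℤ) : ZMod 4) = ((1 : ℤ) : ZMod 4) :=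
        (ZMod.intCast_eq_intCast_iff_dvd_sub _ _ 4).2 (by omega)
      simpa using this
    · right
      have : ((m' : ℤ) : ZMod 4) = ((3 : ℤ) : ZMod 4) :=
        (ZMod.intCast_eq_intCast_iff_dvd_sub _ _ 4).2 (by omega)
      rw [this]
      norm_num
  have hm2 := norm_of_odd _ hm1
  have h2n : ‖(2 : ℚ_[2])‖ = 2⁻¹ := by
    have := Padic.norm_p (p := 2)
    rw [Nat.cast_ofNat] at this
    rw [this]
    norm_num
  have hy0 : y ≠ 0 := by
    rintro rfl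
    rw [zero_pow two_ne_zero, mul_eq_zero] at h
    rcases h with h | h
    · exact hm (by exact_mod_cast h)
    · rw [PadicInt.norm_def, h, norm_zero] at hz1
      exact zero_ne_one hz1
  have hn : (2 : ℝ)⁻¹ ^ j = ‖y‖ ^ 2 := by
    rw [← norm_pow, ← h, norm_mul, hj]
    push_cast
    rw [norm_mul, norm_pow, h2n]
    have e1 : ‖((m' : ℤ) : ℚ_[2])‖ = 1 := by
      rw [PadicInt.norm_def] at hm2
      simpa using hm2
    have e2 : ‖(z : ℚ_[2])‖ = 1 := by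
      rw [← PadicInt.norm_def]
      exact hz1
    rw [e1, e2, mul_one, mul_one]
  rw [Padic.norm_eq_zpow_neg_valuation hy0] at hn
  have hn2 : ((2 : ℕ) : ℝ) ^ (-(j : ℤ)) = ((2 : ℕ) : ℝ) ^ (-y.valuation * 2) := by
    rw [zpow_mul, zpow_neg, zpow_natCast, ← inv_pow]
    push_cast at hn ⊢
    rw [hn]
    norm_cast
  have hj2 : (-(j : ℤ)) = -y.valuation * 2 := by
    refine zpow_right_injective₀ (by norm_num) (by norm_num) hn2
  obtain ⟨k, hk⟩ : ∃ k : ℕ, j = 2 * k := ⟨j / 2, by omega⟩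
  subst hk
  refine ⟨k, m', ?_, ?_⟩
  · rw [hj, pow_mul]
    norm_num
  · -- the unit part
    have h3 : (m' : ℚ_[2]) * (z : ℚ_[2]) = (y / 2 ^ k) ^ 2 := by
      rw [div_pow, eq_div_iff (pow_ne_zero _ (pow_ne_zero _ two_ne_zero)), ← h, hj]
      push_cast
      ring
    have h4 : ‖y / 2 ^ k‖ ^ 2 = 1 := by
      rw [← norm_pow, ← h3, norm_mul]
      have e1 : ‖((m' : ℤ) : ℚ_[2])‖ = 1 := by
        rw [PadicInt.norm_def] at hm2
        simpa using hm2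
      have e2 : ‖(z : ℚ_[2])‖ = 1 := by
        rw [← PadicInt.norm_def]
        exact hz1
      rw [e1, e2, mul_one]
    have h5 : ‖y / 2 ^ k‖ = 1 := by
      have := norm_nonneg (y / 2 ^ k)
      nlinarith
    obtain ⟨w, hw⟩ : ∃ w : ℤ_[2], (w : ℚ_[2]) = y / 2 ^ k := ⟨⟨_, h5.le⟩, rfl⟩
    have hw1 : ‖w‖ = 1 := by rw [PadicInt.norm_def, hw]; exact h5
    have h6 : (m' : ℤ_[2]) * z = w ^ 2 := by
      apply PadicInt.ext
      push_cast
      rw [hw]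
      exact h3
    have h7 := congrArg φ4 h6
    rw [map_mul, map_pow, hz] at h7
    rcases odd_of_norm w hw1 with h8 | h8 <;> rcases hm1 with h9 | h9
    · rw [h8, h9] at h7
      exact absurd h7 (by decide)
    · rw [map_intCast] at h9
      have h10 : ((m' : ℤ) : ZMod 4) = ((3 : ℤ) : ZMod 4) := by rw [h9]; norm_num
      have h11 := (ZMod.intCast_eq_intCast_iff_dvd_sub _ _ 4).1 h10
      omega
    · rw [h8, h9] at h7
      exact absurd h7 (by decide)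
    · rw [map_intCast] at h9
      have h10 : ((m' : ℤ) : ZMod 4) = ((3 : ℤ) : ZMod 4) := by rw [h9]; norm_num
      have h11 := (ZMod.intCast_eq_intCast_iff_dvd_sub _ _ 4).1 h10
      omega

/-- `m n t = y ^ 2` with a unit `n` and `m` of the form `Th`: `n t` is `3` or `t` is `0` modulo `4`. -/
theorem of_th {m : ℤ} (hm : Th m) {n t : ℤ_[2]} (hn : φ4 n = 1 ∨ φ4 n = 3) {y : ℚ_[2]}
    (h : (m : ℚ_[2]) * ((n : ℚ_[2]) * (t : ℚ_[2])) = y ^ 2) (h3 : φ4 (n * t) ≠ 3) : φ4 t = 0 := by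
  obtain ⟨k, m', hk, hm'⟩ := hm
  have h2n : ‖(2 : ℚ_[2])‖ = 2⁻¹ := by
    have := Padic.norm_p (p := 2)
    rw [Nat.cast_ofNat] at this
    rw [this]
    norm_num
  have hm3 : φ4 (m' : ℤ_[2]) = 3 := by
    rw [map_intCast]
    have : ((m' : ℤ) : ZMod 4) = ((3 : ℤ) : ZMod 4) :=
      (ZMod.intCast_eq_intCast_iff_dvd_sub _ _ 4).2 (by omega)
    rw [this]
    norm_num
  have hm2 := norm_of_odd _ (Or.inr hm3)
  have hn1 := norm_of_odd _ hn
  have e1 : ‖((m' : ℤ) : ℚ_[2])‖ = 1 := by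
    rw [PadicInt.norm_def] at hm2
    simpa using hm2
  have e2 : ‖(n : ℚ_[2])‖ = 1 := by
    rw [← PadicInt.norm_def]
    exact hn1
  have h4 : (m' : ℚ_[2]) * ((n : ℚ_[2]) * (t : ℚ_[2])) = (y / 2 ^ k) ^ 2 := by
    rw [div_pow, eq_div_iff (pow_ne_zero _ (pow_ne_zero _ two_ne_zero)), ← h, hk]
    push_cast
    have e4 : (4 : ℚ_[2]) ^ k = (2 ^ k) ^ 2 := by
      rw [← pow_mul, mul_comm, pow_mul]
      norm_num
    rw [e4]
    ring
  obtain ⟨w, hw⟩ : ∃ w, w = y / 2 ^ k := ⟨_, rfl⟩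
  rw [← hw] at h4
  have h5 : ‖t‖ = ‖w‖ ^ 2 := by
    rw [← norm_pow, ← h4, norm_mul, norm_mul, e1, e2, one_mul, one_mul, PadicInt.norm_def]
  by_cases ht : ‖t‖ = 1
  · exfalso
    have hw1 : ‖w‖ = 1 := by
      rw [ht] at h5
      have := norm_nonneg w
      nlinarith
    obtain ⟨w', hw'⟩ : ∃ w' : ℤ_[2], (w' : ℚ_[2]) = w := ⟨⟨_, hw1.le⟩, rfl⟩
    have h6 : (m' : ℤ_[2]) * (n * t) = w' ^ 2 := by
      apply PadicInt.ext
      push_cast
      rw [hw']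
      exact h4
    have hw'1 : ‖w'‖ = 1 := by rw [PadicInt.norm_def, hw']; exact hw1
    have h7 := congrArg φ4 h6
    rw [map_mul, hm3, map_pow] at h7
    have h8 : φ4 w' ^ 2 = 1 := by
      rcases odd_of_norm w' hw'1 with h8 | h8 <;> rw [h8] <;> decide
    rw [h8] at h7
    apply h3
    revert h7
    generalize φ4 (n * t) = q
    revert q
    decide
  · have ht1 : ‖t‖ < 1 := lt_of_le_of_ne (PadicInt.norm_le_one t) ht
    rw [φ4_ker]
    by_cases ht0 : t = 0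
    · rw [ht0, norm_zero]
      norm_num
    have hw0 : w ≠ 0 := by
      rintro rfl
      rw [norm_zero, zero_pow two_ne_zero, norm_eq_zero] at h5
      exact ht0 h5
    have hwlt : ‖w‖ < 1 := by
      by_contra hc
      rw [not_lt] at hc
      have : 1 ≤ ‖w‖ ^ 2 := one_le_pow₀ hc
      linarith
    have hw2 : ‖w‖ ≤ 1 / 2 := by
      rw [Padic.norm_eq_zpow_neg_valuation hw0] at hwlt ⊢
      have h9 : -w.valuation < 0 := by
        by_contra hc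
        rw [not_lt] at hc
        have := one_le_zpow₀ (a := ((2 : ℕ) : ℝ)) (by norm_num) hc
        linarith
      have h10 : ((2 : ℕ) : ℝ) ^ (-w.valuation) ≤ ((2 : ℕ) : ℝ) ^ (-1 : ℤ) :=
        zpow_le_zpow_right₀ (by norm_num) (by omega)
      refine h10.trans ?_
      norm_num
    rw [h5]
    have := norm_nonneg w
    nlinarith


section calcs

/-- The computation modulo `4`, over `ℤ_2`. -/
theorem calc0 {a b : ℤ} (ha : a % 4 = 3) (hb : b % 4 = 3) {g₁ g₂ : ℤ} {u v n r s t : ℤ_[2]}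
    (hp : u = 1 ∨ v = 1) (hn : n = u ^ 3 + a * u * v ^ 2 + b * v ^ 3) {T0 T1 T2 : ℚ_[2]}
    (e0 : (n : ℚ_[2]) * (u * (1 + 4 * r) + b * v * (2 * g₂ + 4 * t)) = T0 ^ 2 - 2 * T1 * T2 * b)
    (e1 : (n : ℚ_[2]) * (u * (2 * g₁ + 4 * s) - v * (1 + 4 * r) + a * v * (2 * g₂ + 4 * t)) =
      2 * T0 * T1 - 2 * T1 * T2 * a - T2 ^ 2 * b)
    (e2 : (n : ℚ_[2]) * (u * (2 * g₂ + 4 * t) - v * (2 * g₁ + 4 * s)) =
      T1 ^ 2 + 2 * T0 * T2 - T2 ^ 2 * a) :
    (φ4 n = 1 ∨ φ4 n = 3) ∧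
    (φ4 (n * v) = 3 → Even (g₁ - g₂)) ∧ (φ4 (n * v) ≠ 3 → Even g₂) ∧ (φ4 v = 0 → Even g₁) := by
  have hbo : Odd b := Int.odd_iff.2 (by omega)
  have hv2 : (NormedField.valuation (K := ℚ_[2])) 2 < 1 := by
    rw [NormedField.valuation_apply]
    have := Padic.norm_p (p := 2)
    rw [Nat.cast_ofNat] at this
    rw [← NNReal.coe_lt_coe, coe_nnnorm, this]
    norm_num
  have hz : ∀ x : ℤ_[2], (NormedField.valuation (K := ℚ_[2])) (x : ℚ_[2]) ≤ 1 := by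
    intro x
    rw [NormedField.valuation_apply, ← NNReal.coe_le_coe, coe_nnnorm]
    exact x.2
  obtain ⟨k0, k1, k2⟩ := Pool.Agent.N323.PV.integral (NormedField.valuation (K := ℚ_[2])) hv2 hbo
    e0 e1 e2
    (by
      have := hz (n * (u * (1 + 4 * r) + b * v * (2 * g₂ + 4 * t)))
      push_cast at this
      exact this)
    (by
      have := hz (n * (u * (2 * g₁ + 4 * s) - v * (1 + 4 * r) + a * v * (2 * g₂ + 4 * t)))
      push_cast at this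
      exact this)
    (by
      have := hz (n * (u * (2 * g₂ + 4 * t) - v * (2 * g₁ + 4 * s)))
      push_cast at this
      exact this)
  have hlift : ∀ x : ℚ_[2], (NormedField.valuation (K := ℚ_[2])) x ≤ 1 →
      ∃ w : ℤ_[2], (w : ℚ_[2]) = x := by
    intro x hx
    rw [NormedField.valuation_apply, ← NNReal.coe_le_coe, coe_nnnorm] at hx
    exact ⟨⟨x, hx⟩, rfl⟩
  obtain ⟨w0, rfl⟩ := hlift T0 k0
  obtain ⟨w1, rfl⟩ := hlift T1 k1
  obtain ⟨w2, rfl⟩ := hlift T2 k2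
  have f0 : n * (u * (1 + 4 * r) + b * v * (2 * g₂ + 4 * t)) = w0 ^ 2 - 2 * w1 * w2 * b := by
    apply PadicInt.ext
    push_cast
    exact e0
  have f1 : n * (u * (2 * g₁ + 4 * s) - v * (1 + 4 * r) + a * v * (2 * g₂ + 4 * t)) =
      2 * w0 * w1 - 2 * w1 * w2 * a - w2 ^ 2 * b := by
    apply PadicInt.ext
    push_cast
    exact e1
  have f2 : n * (u * (2 * g₂ + 4 * t) - v * (2 * g₁ + 4 * s)) =
      w1 ^ 2 + 2 * w0 * w2 - w2 ^ 2 * a := by
    apply PadicInt.ext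
    push_cast
    exact e2
  have h4 : (4 : ZMod 4) = 0 := by decide
  have ha3 : ((a : ℤ) : ZMod 4) = 3 := by
    have : ((a : ℤ) : ZMod 4) = ((3 : ℤ) : ZMod 4) :=
      (ZMod.intCast_eq_intCast_iff_dvd_sub _ _ 4).2 (by omega)
    rw [this]
    norm_num
  have hb3 : ((b : ℤ) : ZMod 4) = 3 := by
    have : ((b : ℤ) : ZMod 4) = ((3 : ℤ) : ZMod 4) :=
      (ZMod.intCast_eq_intCast_iff_dvd_sub _ _ 4).2 (by omega)
    rw [this]
    norm_num
  have hp' : φ4 u = 1 ∨ φ4 v = 1 := by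
    rcases hp with h | h
    · left
      rw [h, map_one]
    · right
      rw [h, map_one]
  have hn' : φ4 n = φ4 u ^ 3 + 3 * φ4 u * φ4 v ^ 2 + 3 * φ4 v ^ 3 := by
    rw [hn]
    simp only [map_add, map_mul, map_pow, map_intCast, ha3, hb3]
  have hg : ∀ g : ℤ, (2 : ZMod 4) * (2 * (g : ZMod 4)) = 0 := by
    intro g
    rw [← mul_assoc, show (2 : ZMod 4) * 2 = 0 by decide, zero_mul]
  have F0 := congrArg φ4 f0
  have F1 := congrArg φ4 f1
  have F2 := congrArg φ4 f2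
  simp only [map_add, map_sub, map_mul, map_pow, map_intCast, map_ofNat, map_one, ha3, hb3, h4,
    zero_mul, add_zero, mul_one] at F0 F1 F2
  rw [hn'] at F0 F1 F2
  obtain ⟨r1, r2, r3⟩ := check4 (φ4 u) (φ4 v) (φ4 w0) (φ4 w1) (φ4 w2) (2 * (g₁ : ZMod 4))
    (2 * (g₂ : ZMod 4)) hp' (hg _) (hg _) (by linear_combination F0) (by linear_combination F1)
    (by linear_combination F2)
  rw [← hn', ← map_mul] at r1 r2
  refine ⟨?_, fun h => ?_, fun h => φ4_even (r2 h), fun h => φ4_even (r3 h)⟩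
  · rw [hn']
    exact unit4 _ _ hp'
  · apply φ4_even
    push_cast
    linear_combination r1 h

/-- The class of the polynomial `h` is in the local image at `2` of the twist by `m`. -/
def PLt (a b m : ℤ) (h : ℚ_[2][X]) : Prop :=
  (∃ g : ℚ_[2][X], ff ℚ_[2] a b ∣ h - g ^ 2) ∨
  ∃ x y : ℚ_[2], y ≠ 0 ∧ y ^ 2 = x ^ 3 + (a * m ^ 2 : ℚ_[2]) * x + (b * m ^ 3 : ℚ_[2]) ∧
    ∃ g : ℚ_[2][X], ff ℚ_[2] a b ∣ (C x - C (m : ℚ_[2]) * X) * h - g ^ 2

theorem plt_congr {a b m : ℤ} {h h' : ℚ_[2][X]} (hd : ff ℚ_[2] a b ∣ h - h')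
    (H : PLt a b m h) : PLt a b m h' := by
  rcases H with ⟨g, hg⟩ | ⟨x, y, hy, hxy, g, hg⟩
  · left
    refine ⟨g, ?_⟩
    have e : h' - g ^ 2 = (h - g ^ 2) - (h - h') := by ring
    rw [e]
    exact dvd_sub hg hd
  · right
    refine ⟨x, y, hy, hxy, g, ?_⟩
    have e : (C x - C (m : ℚ_[2]) * X) * h' - g ^ 2 =
        ((C x - C (m : ℚ_[2]) * X) * h - g ^ 2) - (C x - C (m : ℚ_[2]) * X) * (h - h') := by ring
    rw [e]
    exact dvd_sub hg (dvd_mul_of_dvd_right hd _)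

theorem plt_sq {a b m : ℤ} {h : ℚ_[2][X]} (k : ℚ_[2][X]) (H : PLt a b m h) :
    PLt a b m (k ^ 2 * h) := by
  rcases H with ⟨g, hg⟩ | ⟨x, y, hy, hxy, g, hg⟩
  · left
    refine ⟨k * g, ?_⟩
    have e : k ^ 2 * h - (k * g) ^ 2 = k ^ 2 * (h - g ^ 2) := by ring
    rw [e]
    exact dvd_mul_of_dvd_right hg _
  · right
    refine ⟨x, y, hy, hxy, k * g, ?_⟩
    have e : (C x - C (m : ℚ_[2]) * X) * (k ^ 2 * h) - (k * g) ^ 2 =
        k ^ 2 * ((C x - C (m : ℚ_[2]) * X) * h - g ^ 2) := by ring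
    rw [e]
    exact dvd_mul_of_dvd_right hg _

/-- A primitive representative. -/
theorem prim (x m : ℚ_[2]) (hm : m ≠ 0) : ∃ (l : ℚ_[2]) (u v : ℤ_[2]), l ≠ 0 ∧ x = l * u ∧
    m = l * v ∧ (u = 1 ∨ v = 1) := by
  by_cases h : ‖x‖ ≤ ‖m‖
  · have h1 : ‖x / m‖ ≤ 1 := by
      rw [norm_div]
      exact div_le_one_of_le₀ h (norm_nonneg _)
    refine ⟨m, ⟨x / m, h1⟩, 1, hm, ?_, ?_, Or.inr rfl⟩
    · change x = m * (x / m)
      rw [mul_div_cancel₀ _ hm]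
    · push_cast
      rw [mul_one]
  · rw [not_le] at h
    have hx : x ≠ 0 := by
      rintro rfl
      rw [norm_zero] at h
      exact absurd h (not_lt.2 (norm_nonneg _))
    have h1 : ‖m / x‖ ≤ 1 := by
      rw [norm_div]
      exact div_le_one_of_le₀ h.le (norm_nonneg _)
    refine ⟨x, 1, ⟨m / x, h1⟩, hx, ?_, ?_, Or.inl rfl⟩
    · push_cast
      rw [mul_one]
    · change m = x * (m / x)
      rw [mul_div_cancel₀ _ hx]

/-- The classes of the points of the twist. -/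
theorem calc1 {a b m : ℤ} (ha : a % 4 = 3) (hb : b % 4 = 3) (hm : m ≠ 0) {g₁ g₂ : ℤ}
    {r s t : ℤ_[2]} (H : PLt a b m (pol ℚ_[2] g₁ g₂ r s t)) :
    (¬ Th m → Even g₂) ∧ (Th m → Even (g₁ - g₂)) := by
  rcases H with ⟨g, hg⟩ | ⟨x, y, hy, hxy, g, hg⟩
  · obtain ⟨T0, T1, T2, e0, e1, e2⟩ := Pool.Agent.N323.PV.sq_form (a := a) (b := b)
      (1 + 4 * (r : ℚ_[2])) (2 * g₁ + 4 * s) (2 * g₂ + 4 * t) g (by
        convert hg using 1
        unfold pol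
        simp only [map_add, map_mul, map_ofNat, map_one]
        ring)
    obtain ⟨-, h1, h2, h3⟩ := calc0 ha hb (g₁ := g₁) (g₂ := g₂) (u := 1) (v := 0) (n := 1) (r := r)
      (s := s) (t := t) (Or.inl rfl) (by ring) (T0 := T0) (T1 := T1) (T2 := T2)
      (by push_cast; linear_combination e0) (by push_cast; linear_combination e1)
      (by push_cast; linear_combination e2)
    have h4 := h2 (by rw [mul_zero, map_zero]; decide)
    have h5 := h3 (map_zero _)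
    exact ⟨fun _ => h4, fun _ => h5.sub h4⟩
  · have hmq : (m : ℚ_[2]) ≠ 0 := by exact_mod_cast hm
    obtain ⟨l, u, v, hl, hx, hv, hp⟩ := prim x m hmq
    obtain ⟨n, hn⟩ : ∃ n : ℤ_[2], n = u ^ 3 + a * u * v ^ 2 + b * v ^ 3 := ⟨_, rfl⟩
    have hn' : (n : ℚ_[2]) = u ^ 3 + a * u * v ^ 2 + b * v ^ 3 := by
      rw [hn]
      push_cast
      ring
    have hy2 : y ^ 2 = l ^ 3 * n := by
      rw [hxy, hn', hx, hv]
      ring
    -- `n (u - v X) pol` is a square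
    have hdiv : ff ℚ_[2] a b ∣ C (n : ℚ_[2]) * (C (u : ℚ_[2]) - C (v : ℚ_[2]) * X) *
        pol ℚ_[2] g₁ g₂ r s t - (C (y / l ^ 2) * g) ^ 2 := by
      have h1 : ff ℚ_[2] a b ∣ C ((y / l ^ 2) ^ 2) * ((C x - C (m : ℚ_[2]) * X) *
        pol ℚ_[2] g₁ g₂ r s t - g ^ 2) := dvd_mul_of_dvd_right hg _
      convert h1 using 1
      have h2 : C ((y / l ^ 2) ^ 2) * (C x - C (m : ℚ_[2]) * X) =
          C (n : ℚ_[2]) * (C (u : ℚ_[2]) - C (v : ℚ_[2]) * X) := by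
        have h3 : (y / l ^ 2) ^ 2 * l = n := by
          rw [div_pow, hy2]
          field_simp
        rw [hv, hx, map_mul, map_mul, ← h3, map_mul]
        ring
      rw [← h2, mul_pow, ← map_pow]
      ring
    obtain ⟨T0, T1, T2, e0, e1, e2⟩ := Pool.Agent.N323.PV.sq_form (a := a) (b := b)
      ((n : ℚ_[2]) * (u * (1 + 4 * r) + b * v * (2 * g₂ + 4 * t)))
      ((n : ℚ_[2]) * (u * (2 * g₁ + 4 * s) - v * (1 + 4 * r) + a * v * (2 * g₂ + 4 * t)))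
      ((n : ℚ_[2]) * (u * (2 * g₂ + 4 * t) - v * (2 * g₁ + 4 * s))) (C (y / l ^ 2) * g) (by
        have h1 : ff ℚ_[2] a b ∣ ff ℚ_[2] a b * C (n * v * (2 * g₂ + 4 * t) : ℚ_[2]) :=
          dvd_mul_right _ _
        have h2 := dvd_add hdiv h1
        convert h2 using 1
        unfold pol ff
        simp only [map_add, map_sub, map_mul, map_ofNat, map_one]
        ring)
    obtain ⟨h0, h1, h2, h3⟩ := calc0 ha hb (g₁ := g₁) (g₂ := g₂) hp hn e0 e1 e2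
    have hsq : (m : ℚ_[2]) * ((n : ℚ_[2]) * (v : ℚ_[2])) = (y * v / l) ^ 2 := by
      rw [div_pow, mul_pow, hy2, hv]
      field_simp
    constructor
    · intro hT
      apply h2
      intro h4
      apply hT
      refine th_of hm h4 (y := y * v / l) ?_
      push_cast
      exact hsq
    · intro hT
      by_cases h4 : φ4 (n * v) = 3
      · exact h1 h4
      · exact (h3 (of_th hT h0 hsq h4)).sub (h2 h4)

end calcs

end Pool.Agent.K6.H88.TW
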